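import Pool.Agent.Helper3.PP.Indep

/-!
# The core of Stepanov's method (MP_4ed2e5_nt)
-/

set_option autoImplicit false

namespace Pool.Agent.Helper3.PP

open Polynomial Finset

variable {K : Type*} [Field K]

/-- Base `q` digits. -/
def dig (q E j : ℕ) : ℕ := E / q ^ j % q

theorem dig_lt {q : ℕ} (hq : 0 < q) (E j : ℕ) : dig q E j < q := Nat.mod_lt _ hq

theorem dig_sum (q E a : ℕ) : ∑ j ∈ range a, dig q E j * q ^ j = E % q ^ a := by
  induction a with
  | zero => simp [Nat.mod_one]
  | succ a ih =>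
    rw [Finset.sum_range_succ, ih, Nat.mod_pow_succ, dig, mul_comm (E / q ^ a % q)]

/-- The conjugates of `θ`. -/
def cj (q : ℕ) (θ : K) (j : ℕ) : K := θ ^ (q ^ j)

/-- On the fixed field, the function `g` is a power. -/
theorem eval_PL [CharP K 2] (e a E : ℕ) (hE : E < (2 ^ e) ^ a) (θ x : K) (hx : x ^ (2 ^ e) = x) :
    (PL a (cj (2 ^ e) θ) (dig (2 ^ e) E)).eval x = (θ + x) ^ E := by
  have hpow : ∀ j, x ^ ((2 ^ e) ^ j) = x := by
    intro j
    induction j with
    | zero => simp
    | succ j ih => rw [pow_succ (2 ^ e) j, pow_mul, ih, hx]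
  rw [PL, eval_prod]
  have h1 : ∀ j ∈ range a, eval x ((X + C (cj (2 ^ e) θ j)) ^ dig (2 ^ e) E j) =
      (θ + x) ^ (dig (2 ^ e) E j * (2 ^ e) ^ j) := by
    intro j _
    rw [eval_pow, eval_add, eval_X, eval_C, cj]
    have h2 : (θ + x) ^ ((2 ^ e) ^ j) = θ ^ ((2 ^ e) ^ j) + x ^ ((2 ^ e) ^ j) := by
      rw [← pow_mul, add_pow_char_pow]
    rw [mul_comm (dig (2 ^ e) E j), pow_mul, h2, hpow, add_comm]
  rw [Finset.prod_congr rfl h1, Finset.prod_pow_eq_pow_sum, dig_sum, Nat.mod_eq_of_lt hE]

/-- **Stepanov's method**, core statement. -/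
theorem stepanov_core [CharP K 2] (e a M I J R : ℕ) (ha : 1 ≤ a) (hM : M ≤ 2 ^ e) (hR1 : 1 ≤ R)
    (hJ : 1 ≤ J) (hRq : R ≤ 2 ^ e) (θ : K)
    (hinj : ∀ i < a, ∀ j < a, cj (2 ^ e) θ i = cj (2 ^ e) θ j → i = j)
    (E : Fin I → ℕ) (hE : ∀ i, E i < (2 ^ e) ^ a) (γ : Fin I → K) (A : Finset K)
    (hA : ∀ x ∈ A, x ^ (2 ^ e) = x) (hγ : ∀ x ∈ A, ∀ i, (θ + x) ^ E i = γ i)
    (hsep : ∀ i i', i < i' → E i / (2 ^ e) ^ (a - 1) + R ≤ E i' / (2 ^ e) ^ (a - 1))
    (hwrap : ∀ i, E i / (2 ^ e) ^ (a - 1) + R ≤ 2 ^ e)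
    (hcount : ∑ k : Fin M, (R + J + (k : ℕ) * (a - 1)) < I * (J * R)) :
    M * A.card ≤ a * M + R + a * 2 ^ e + J * 2 ^ e := by
  classical
  set q : ℕ := 2 ^ e with hq
  have hq0 : 0 < q := by rw [hq]; positivity
  set t : ℕ → K := cj q θ with ht
  -- the functions
  set g : Fin I → K[X] := fun i => PL a t (dig q (E i)) with hg
  set m : Fin I → ℕ → ℕ := fun i j => M + dig q (E i) j with hm
  have hW : ∀ i, ∃ W : ℕ → K[X], ∀ b ≤ M,
      hasseDeriv b (PL a t (m i)) = PL a t (fun j => m i j - b) * W b ∧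
        (W b).natDegree ≤ b * (a - 1) := fun i =>
    exists_cof hinj (m i) M (fun j => Nat.le_add_right _ _)
  choose W hW using hW
  let s : Fin I → ℕ → K[X] →ₗ[K] K[X] := fun i k =>
    ∑ x ∈ HasAntidiagonal.antidiagonal k,
      (LinearMap.mulLeft K (PL a t (fun _ => x.2) * W i x.1)) ∘ₗ (hasseDeriv x.2)
  have hs_apply : ∀ i k r, s i k r = ∑ x ∈ HasAntidiagonal.antidiagonal k,
      PL a t (fun _ => x.2) * W i x.1 * hasseDeriv x.2 r := by
    intro i k r
    simp only [s, LinearMap.sum_apply, LinearMap.comp_apply, LinearMap.mulLeft_apply]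
  -- Hasse derivatives
  have hA1 : ∀ i, ∀ k ≤ M, ∀ r, hasseDeriv k (PL a t (m i) * r) =
      PL a t (fun j => m i j - k) * s i k r := by
    intro i k hk r
    rw [hasseDeriv_mul, hs_apply, Finset.mul_sum]
    refine Finset.sum_congr rfl fun x hx => ?_
    rw [HasAntidiagonal.mem_antidiagonal] at hx
    obtain ⟨h1, -⟩ := hW i x.1 (by omega)
    have h2 : PL a t (fun j => m i j - x.1) =
        PL a t (fun j => m i j - k) * PL a t (fun _ => x.2) := by
      rw [PL_mul]
      congr 1
      funext j
      have : M ≤ m i j := Nat.le_add_right _ _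
      omega
    rw [h1, h2]
    ring
  have hdeg : ∀ i, ∀ k ≤ M, ∀ r, (s i k r).natDegree ≤ r.natDegree + k * (a - 1) := by
    intro i k hk r
    rw [hs_apply]
    refine natDegree_sum_le_of_forall_le _ _ fun x hx => ?_
    rw [HasAntidiagonal.mem_antidiagonal] at hx
    obtain ⟨-, h1⟩ := hW i x.1 (by omega)
    by_cases hr : r.natDegree < x.2
    · rw [hasseDeriv_eq_zero_of_lt_natDegree _ _ hr, mul_zero]
      simp
    · have h2 := natDegree_hasseDeriv_le r x.2
      have h3 : (PL a t (fun _ => x.2)).natDegree = a * x.2 := by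
        rw [PL_natDegree, Finset.sum_const, Finset.card_range, smul_eq_mul]
      have h4 : (PL a t (fun _ => x.2) * W i x.1 * hasseDeriv x.2 r).natDegree ≤
          a * x.2 + x.1 * (a - 1) + (r.natDegree - x.2) := by
        refine natDegree_mul_le.trans (Nat.add_le_add (natDegree_mul_le.trans ?_) h2)
        rw [h3]
        exact Nat.add_le_add_left h1 _
      refine h4.trans ?_
      have h5 : k * (a - 1) = x.1 * (a - 1) + x.2 * (a - 1) := by rw [← hx, add_mul]
      have h6 : a * x.2 = x.2 * (a - 1) + x.2 := by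
        obtain ⟨b, rfl⟩ : ∃ b, a = b + 1 := ⟨a - 1, by omega⟩
        simp only [Nat.add_sub_cancel]
        ring
      omega
  -- the linear system
  let D := Fin I × Fin J × Fin R → K
  let rr : Fin I → Fin J → D →ₗ[K] K[X] := fun i j =>
    ∑ l : Fin R, (monomial (l : ℕ)) ∘ₗ (LinearMap.proj (i, j, l))
  have hrr_apply : ∀ i j (u : D), rr i j u = ∑ l : Fin R, monomial (l : ℕ) (u (i, j, l)) := by
    intro i j u
    simp only [rr, LinearMap.sum_apply, LinearMap.comp_apply]
    rfl
  have hrr_deg : ∀ i j (u : D), (rr i j u).natDegree < R := by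
    intro i j u
    have : (rr i j u).natDegree ≤ R - 1 := by
      rw [hrr_apply]
      refine natDegree_sum_le_of_forall_le _ _ fun l _ => ?_
      exact (natDegree_monomial_le _).trans (by have := l.2; omega)
    omega
  let S : ℕ → D →ₗ[K] K[X] := fun k =>
    ∑ i : Fin I, ∑ j : Fin J,
      (LinearMap.mulLeft K (C (γ i) * X ^ (j : ℕ))) ∘ₗ (s i k) ∘ₗ (rr i j)
  have hS_apply : ∀ k (u : D), S k u = ∑ i : Fin I, ∑ j : Fin J,
      C (γ i) * X ^ (j : ℕ) * s i k (rr i j u) := by
    intro k u
    simp only [S, LinearMap.sum_apply, LinearMap.comp_apply, LinearMap.mulLeft_apply]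
  have hS_deg : ∀ k ≤ M, ∀ u : D, (S k u).natDegree < R + J + k * (a - 1) := by
    intro k hk u
    have : (S k u).natDegree ≤ (J - 1) + ((R - 1) + k * (a - 1)) := by
      rw [hS_apply]
      refine natDegree_sum_le_of_forall_le _ _ fun i _ => ?_
      refine natDegree_sum_le_of_forall_le _ _ fun j _ => ?_
      refine natDegree_mul_le.trans (Nat.add_le_add ?_ ?_)
      · refine (natDegree_C_mul_X_pow_le _ _).trans ?_
        have := j.2
        omega
      · refine (hdeg i k hk _).trans ?_
        have := hrr_deg i j u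
        omega
    omega
  let Φ : D →ₗ[K] ((Σ k : Fin M, Fin (R + J + (k : ℕ) * (a - 1))) → K) :=
    LinearMap.pi fun x => (lcoeff K (x.2 : ℕ)) ∘ₗ (S (x.1 : ℕ))
  have hker : LinearMap.ker Φ ≠ ⊥ := by
    apply LinearMap.ker_ne_bot_of_finrank_lt
    rw [Module.finrank_fintype_fun_eq_card, Module.finrank_fintype_fun_eq_card,
      Fintype.card_sigma, Fintype.card_prod, Fintype.card_prod]
    simp only [Fintype.card_fin]
    exact hcount
  obtain ⟨u, hu, hu0⟩ := (Submodule.ne_bot_iff _).1 hker
  have hS0 : ∀ k < M, S k u = 0 := by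
    intro k hk
    ext d
    rw [coeff_zero]
    by_cases hd : d < R + J + k * (a - 1)
    · have h1 := congrFun (LinearMap.mem_ker.1 hu) ⟨⟨k, hk⟩, ⟨d, hd⟩⟩
      simpa [Φ, lcoeff_apply] using h1
    · exact coeff_eq_zero_of_natDegree_lt ((hS_deg k hk.le u).trans_le (not_lt.1 hd))
  -- the auxiliary polynomial
  set ρ : Fin I → K[X] := fun i => ∑ j : Fin J, rr i j u * X ^ ((j : ℕ) * q) with hρ
  set Ψ : K[X] := ∑ i : Fin I, PL a t (m i) * ρ i with hΨ
  have hsplit : ∀ i, PL a t (m i) = PL a t (fun _ => M) * g i := by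
    intro i
    rw [hg]
    dsimp only
    rw [PL_mul]
  have hΨ0 : Ψ ≠ 0 := by
    intro h0
    have h1 : ∑ i, ρ i * g i = 0 := by
      have h2 : Ψ = PL a t (fun _ => M) * ∑ i, ρ i * g i := by
        rw [hΨ, Finset.mul_sum]
        refine Finset.sum_congr rfl fun i _ => ?_
        rw [hsplit]; ring
      rw [h0] at h2
      rcases mul_eq_zero.1 h2.symm with h3 | h3
      · exact absurd h3 (PL_monic a t _).ne_zero
      · exact h3
    set b : K := t (a - 1) with hb
    have h2 : ∑ i, taylor b (ρ i) * taylor b (g i) = 0 := by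
      have := congrArg (taylor b) h1
      rw [map_sum, map_zero] at this
      rw [← this]
      exact Finset.sum_congr rfl fun i _ => (taylor_mul b _ _).symm
    have h3 : ∀ i, taylor b (g i) = X ^ (E i / q ^ (a - 1)) *
        taylor b (PL (a - 1) t (dig q (E i))) := by
      intro i
      have h4 : g i = PL (a - 1) t (dig q (E i)) * (X + C b) ^ (E i / q ^ (a - 1)) := by
        rw [hg]
        dsimp only
        have ha' : a = (a - 1) + 1 := by omega
        conv_lhs => rw [ha']
        rw [PL, Finset.prod_range_succ, ← PL]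
        congr 2
        rw [dig]
        apply Nat.mod_eq_of_lt
        rw [Nat.div_lt_iff_lt_mul (by positivity), ← pow_succ']
        have := hE i
        rwa [show a - 1 + 1 = a by omega]
      rw [h4, taylor_mul, mul_comm]
      congr 1
      rw [taylor_apply, pow_comp, add_comp, X_comp, C_comp]
      congr 1
      rw [add_assoc, ← C_add, CharTwo.add_self_eq_zero, C_0, add_zero]
    have h5 := sum_eq_zero_imp q R I (fun i => taylor b (ρ i))
      (fun i => taylor b (PL (a - 1) t (dig q (E i)))) (fun i => E i / q ^ (a - 1))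
      (fun i => lowRes_taylor e R J b _ (fun j => hrr_deg i j u)) ?_ hsep hwrap ?_
    · -- everything is zero
      apply hu0
      funext x
      obtain ⟨i, j, l⟩ := x
      have h6 : ρ i = 0 := by
        have := h5 i
        exact (taylor_injective b) (by rw [this, map_zero])
      have h7 := eq_zero_of_sum q R J hRq (fun j => rr i j u) (fun j => hrr_deg i j u) h6 j
      have h8 := congrArg (fun f => coeff f (l : ℕ)) h7
      simp only [hrr_apply, finsetSum_coeff, coeff_monomial, coeff_zero] at h8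
      rw [Finset.sum_eq_single l] at h8
      · have h9 : u (i, j, l) = 0 := by simpa using h8
        exact h9
      · intro l' _ hl
        rw [if_neg]
        intro hc
        exact hl (Fin.ext hc)
      · intro hc
        exact absurd (Finset.mem_univ _) hc
    · intro i
      rw [taylor_coeff_zero, PL, eval_prod, Finset.prod_ne_zero_iff]
      intro j hj
      rw [Finset.mem_range] at hj
      rw [eval_pow, eval_add, eval_X, eval_C]
      apply pow_ne_zero
      intro hc
      have hc' : b = t j := by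
        rwa [CharTwo.add_eq_zero] at hc
      have := hinj (a - 1) (by omega) j (by omega) hc'
      omega
    · rw [← h2]
      exact Finset.sum_congr rfl fun i _ => by rw [h3]
  -- multiplicities
  have hmult : ∀ x ∈ A, (X - C x) ^ M ∣ Ψ := by
    intro x hx
    apply pow_dvd_of_hasse
    intro k hk
    have h1 : hasseDeriv k Ψ = PL a t (fun _ => M - k) *
        ∑ i : Fin I, ∑ j : Fin J, g i * s i k (rr i j u) * X ^ ((j : ℕ) * q) := by
      rw [hΨ, map_sum, Finset.mul_sum]
      refine Finset.sum_congr rfl fun i _ => ?_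
      rw [hρ]
      dsimp only
      rw [Finset.mul_sum, map_sum, Finset.mul_sum]
      refine Finset.sum_congr rfl fun j _ => ?_
      rw [← mul_assoc, hq, hasse_mul_pow e k (by omega), ← hq, hA1 i k hk.le]
      have h2 : PL a t (fun j => m i j - k) = PL a t (fun _ => M - k) * g i := by
        rw [hg]
        dsimp only
        rw [PL_mul]
        congr 1
        funext j
        rw [hm]
        dsimp only
        omega
      rw [h2]
      ring
    have hxq : ∀ j : ℕ, x ^ (j * q) = x ^ j := by
      intro j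
      rw [mul_comm, pow_mul, hA x hx]
    have h2 : eval x (∑ i : Fin I, ∑ j : Fin J, g i * s i k (rr i j u) * X ^ ((j : ℕ) * q)) =
        eval x (S k u) := by
      rw [hS_apply, eval_finsetSum, eval_finsetSum]
      refine Finset.sum_congr rfl fun i _ => ?_
      rw [eval_finsetSum, eval_finsetSum]
      refine Finset.sum_congr rfl fun j _ => ?_
      have h3 : eval x (g i) = γ i := by
        rw [hg, ← hγ x hx i]
        exact eval_PL e a (E i) (hE i) θ x (hA x hx)
      simp only [eval_mul, eval_pow, eval_X, eval_C]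
      rw [h3, hxq]
      ring
    rw [h1, eval_mul, h2, hS0 k hk, eval_zero, mul_zero]
  -- degree
  have hdegΨ : Ψ.natDegree ≤ a * (M + q) + (R + J * q) := by
    rw [hΨ]
    refine natDegree_sum_le_of_forall_le _ _ fun i _ => ?_
    refine natDegree_mul_le.trans (Nat.add_le_add ?_ ?_)
    · rw [PL_natDegree]
      refine (Finset.sum_le_card_nsmul _ _ (M + q) fun j _ => ?_).trans
        (by rw [Finset.card_range, smul_eq_mul])
      have := dig_lt hq0 (E i) j
      rw [hm]
      dsimp only
      omega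
    · rw [hρ]
      refine natDegree_sum_le_of_forall_le _ _ fun j _ => ?_
      refine natDegree_mul_le.trans (Nat.add_le_add (hrr_deg i j u).le ?_)
      rw [natDegree_X_pow]
      exact Nat.mul_le_mul_right _ j.2.le
  have hfin := card_mul_le A M Ψ hΨ0 hmult
  have e1 : a * (M + q) = a * M + a * q := by ring
  omega

end Pool.Agent.Helper3.PP
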