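import Mathlib

/-!
# Sums over the primitive prime divisors (MP_4ed2e5_nt)
-/

set_option autoImplicit false

namespace Pool.Agent.Helper3.PP

open Finset

theorem two_pow_card_primeFactors_le {n : ℕ} (hn : n ≠ 0) : 2 ^ n.primeFactors.card ≤ n := by
  calc 2 ^ n.primeFactors.card = ∏ _p ∈ n.primeFactors, 2 := by simp
    _ ≤ ∏ p ∈ n.primeFactors, p :=
        Finset.prod_le_prod' fun p hp => (Nat.prime_of_mem_primeFactors hp).two_le
    _ ≤ n := Nat.le_of_dvd (Nat.pos_of_ne_zero hn) (Nat.prod_primeFactors_dvd n)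

theorem sum_split (S : Finset ℕ) (hS : ∀ m ∈ S, 1 ≤ m) (B : ℕ) (hc : S.card ≤ B)
    (f : ℕ → ℝ) (hf0 : ∀ m, 0 ≤ f m) (hf : ∀ m, B < m → f m ≤ f B) :
    ∑ m ∈ S, f m ≤ ∑ m ∈ Icc 1 B, f m + B * f B := by
  rw [← Finset.sum_filter_add_sum_filter_not S (fun m => m ≤ B)]
  refine add_le_add ?_ ?_
  · refine Finset.sum_le_sum_of_subset_of_nonneg ?_ fun m _ _ => hf0 m
    intro m hm
    rw [mem_filter] at hm
    exact mem_Icc.2 ⟨hS m hm.1, hm.2⟩
  · calc ∑ m ∈ S with ¬ m ≤ B, f m ≤ ∑ m ∈ S with ¬ m ≤ B, f B :=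
          Finset.sum_le_sum fun m hm => hf m (by rw [mem_filter] at hm; omega)
      _ = ((S.filter (fun m => ¬ m ≤ B)).card : ℝ) * f B := by rw [sum_const, nsmul_eq_mul]
      _ ≤ B * f B := by
        refine mul_le_mul_of_nonneg_right ?_ (hf0 B)
        exact_mod_cast (card_filter_le _ _).trans hc

theorem sum_inv_le (S : Finset ℕ) (hS : ∀ m ∈ S, 1 ≤ m) (B : ℕ) (hB : 1 ≤ B)
    (hc : S.card ≤ B) : ∑ m ∈ S, (1 : ℝ) / m ≤ 2 + Real.log B := by
  have hB' : (0 : ℝ) < B := by exact_mod_cast hB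
  have h1 := sum_split S hS B hc (fun m => (1 : ℝ) / m) (fun m => by positivity) (by
    intro m hm
    exact one_div_le_one_div_of_le hB' (by exact_mod_cast hm.le))
  have h2 : ∑ m ∈ Icc 1 B, (1 : ℝ) / m ≤ 1 + Real.log B := by
    have h3 := harmonic_le_one_add_log B
    rw [harmonic_eq_sum_Icc] at h3
    push_cast at h3
    simpa [one_div] using h3
  have h4 : (B : ℝ) * ((1 : ℝ) / B) = 1 := by field_simp
  simp only [h4] at h1
  linarith

/-- The fourth root. -/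
noncomputable def hr (x : ℝ) : ℝ := Real.sqrt (Real.sqrt x)

theorem hr_nonneg (x : ℝ) : 0 ≤ hr x := Real.sqrt_nonneg _

theorem hr_pow {x : ℝ} (hx : 0 ≤ x) : hr x ^ 4 = x := by
  have h1 : hr x ^ 2 = Real.sqrt x := Real.sq_sqrt (Real.sqrt_nonneg x)
  calc hr x ^ 4 = (hr x ^ 2) ^ 2 := by ring
    _ = x := by rw [h1, Real.sq_sqrt hx]

theorem hr_mono {x y : ℝ} (h : x ≤ y) : hr x ≤ hr y := Real.sqrt_le_sqrt (Real.sqrt_le_sqrt h)

theorem hr_pos {x : ℝ} (hx : 0 < x) : 0 < hr x := Real.sqrt_pos.2 (Real.sqrt_pos.2 hx)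

theorem hr_one : hr 1 = 1 := by simp [hr]

theorem one_le_hr {x : ℝ} (hx : 1 ≤ x) : 1 ≤ hr x := by
  have := hr_mono hx
  rwa [hr_one] at this

theorem hr_mul {x y : ℝ} (hx : 0 ≤ x) : hr (x * y) = hr x * hr y := by
  rw [hr, hr, hr, Real.sqrt_mul hx, Real.sqrt_mul (Real.sqrt_nonneg x)]

theorem log_le_hr {x : ℝ} (hx : 0 < x) : Real.log x ≤ 4 * hr x := by
  have h1 := Real.log_le_sub_one_of_pos (hr_pos hx)
  have h2 : Real.log x = 4 * Real.log (hr x) := by
    conv_lhs => rw [← hr_pow hx.le]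
    rw [Real.log_pow]
    norm_num
  rw [h2]
  linarith [hr_nonneg x]

/-- `n ^ (-3/4)`. -/
noncomputable def fq (n : ℕ) : ℝ := (hr n ^ 3)⁻¹

theorem fq_nonneg (n : ℕ) : 0 ≤ fq n := inv_nonneg.2 (pow_nonneg (hr_nonneg _) 3)

theorem fq_one : fq 1 = 1 := by simp [fq, hr_one]

theorem fq_mul (m n : ℕ) : fq (m * n) = fq m * fq n := by
  rw [fq, fq, fq, Nat.cast_mul, hr_mul (Nat.cast_nonneg m), mul_pow, mul_inv]

theorem fq_anti {m n : ℕ} (hm : 1 ≤ m) (h : m ≤ n) : fq n ≤ fq m := by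
  have h1 : 0 < hr m := hr_pos (by exact_mod_cast hm)
  have h2 : hr m ≤ hr n := hr_mono (by exact_mod_cast h)
  exact inv_anti₀ (pow_pos h1 3) (pow_le_pow_left₀ h1.le h2 3)

/-- `fq` as a monoid homomorphism. -/
noncomputable def fqHom : ℕ →* ℝ where
  toFun := fq
  map_one' := fq_one
  map_mul' := fq_mul

theorem sum_fq_le (n : ℕ) : ∑ m ∈ Icc 1 n, fq m ≤ 4 * hr n := by
  induction n with
  | zero => simp [hr_nonneg]
  | succ n ih =>
    rw [Finset.sum_Icc_succ_top (by omega)]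
    have h1 : fq (n + 1) ≤ 4 * hr ((n + 1 : ℕ) : ℝ) - 4 * hr (n : ℝ) := by
      set w := hr ((n + 1 : ℕ) : ℝ) with hw
      set u := hr (n : ℝ) with hu
      have hw4 : w ^ 4 = n + 1 := by
        rw [hw, hr_pow (Nat.cast_nonneg _)]
        push_cast
        ring
      have hu4 : u ^ 4 = n := by rw [hu, hr_pow (Nat.cast_nonneg _)]
      have hu0 : 0 ≤ u := hr_nonneg _
      have hw0 : 0 < w := hr_pos (by positivity)
      have huw : u ≤ w := hr_mono (by push_cast; linarith)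
      have h2 : fq (n + 1) = (w ^ 3)⁻¹ := rfl
      rw [h2, inv_le_iff_one_le_mul₀ (pow_pos hw0 3)]
      have h3 : w ^ 2 * u ≤ w ^ 3 := by
        have : w ^ 2 * u ≤ w ^ 2 * w := mul_le_mul_of_nonneg_left huw (by positivity)
        calc _ ≤ _ := this
          _ = w ^ 3 := by ring
      have h4 : w * u ^ 2 ≤ w ^ 3 := by
        have : w * u ^ 2 ≤ w * w ^ 2 :=
          mul_le_mul_of_nonneg_left (pow_le_pow_left₀ hu0 huw 2) hw0.le
        calc _ ≤ _ := this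
          _ = w ^ 3 := by ring
      have h5 : u ^ 3 ≤ w ^ 3 := pow_le_pow_left₀ hu0 huw 3
      have h6 : (w - u) * (w ^ 3 + w ^ 2 * u + w * u ^ 2 + u ^ 3) = 1 := by
        have : (w - u) * (w ^ 3 + w ^ 2 * u + w * u ^ 2 + u ^ 3) = w ^ 4 - u ^ 4 := by ring
        rw [this, hw4, hu4]
        ring
      have h7 : (w - u) * (w ^ 3 + w ^ 2 * u + w * u ^ 2 + u ^ 3) ≤ (w - u) * (4 * w ^ 3) :=
        mul_le_mul_of_nonneg_left (by linarith) (by linarith)
      rw [h6] at h7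
      linarith
    linarith

theorem sum_fq_le' (S : Finset ℕ) (hS : ∀ m ∈ S, 1 ≤ m) (B : ℕ) (hB : 1 ≤ B)
    (hc : S.card ≤ B) : ∑ m ∈ S, fq m ≤ 5 * hr B := by
  have h1 := sum_split S hS B hc fq fq_nonneg (fun m hm => fq_anti hB hm.le)
  have h2 := sum_fq_le B
  have h3 : (B : ℝ) * fq B = hr B := by
    have h4 : 0 < hr (B : ℝ) := hr_pos (by exact_mod_cast hB)
    have h5 := hr_pow (Nat.cast_nonneg (α := ℝ) B)
    rw [fq]
    nth_rewrite 1 [← h5]
    field_simp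
  rw [h3] at h1
  linarith

theorem prod_one_sub_ge (s : Finset ℕ) (x : ℕ → ℝ) (h0 : ∀ i ∈ s, 0 ≤ x i)
    (h1 : ∀ i ∈ s, x i ≤ 1) : 1 - ∑ i ∈ s, x i ≤ ∏ i ∈ s, (1 - x i) := by
  classical
  have key : 1 - ∑ i ∈ s, x i ≤ ∏ i ∈ s, (1 - x i) ∧ 0 ≤ ∏ i ∈ s, (1 - x i) ∧
      ∏ i ∈ s, (1 - x i) ≤ 1 := by
    induction s using Finset.induction_on with
    | empty => simp
    | insert j s hj ih =>
      obtain ⟨h2, h3, h4⟩ := ih (fun i hi => h0 i (mem_insert_of_mem hi))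
        (fun i hi => h1 i (mem_insert_of_mem hi))
      have h5 := h0 j (mem_insert_self _ _)
      have h6 := h1 j (mem_insert_self _ _)
      rw [Finset.sum_insert hj, Finset.prod_insert hj]
      refine ⟨?_, mul_nonneg (by linarith) h3, ?_⟩
      · nlinarith
      · nlinarith
  exact key.1

/-- The divisors of `a` other than `1`. -/
theorem sum_divisors_le (a : ℕ) (ha : a ≠ 0)
    (hX : ∑ P ∈ a.primeFactors, fq P ≤ 1 / 2) :
    ∑ d ∈ a.divisors.erase 1, fq d ≤ 2 * ∑ P ∈ a.primeFactors, fq P := by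
  have hlt : ∀ {p : ℕ}, p.Prime → ‖fqHom p‖ < 1 := by
    intro p hp
    have h1 : fqHom p = fq p := rfl
    rw [h1, Real.norm_eq_abs, abs_of_nonneg (fq_nonneg p), fq]
    have h2 : (1 : ℝ) < p := by exact_mod_cast hp.one_lt
    have h3 : 1 < hr (p : ℝ) := by
      by_contra hcon
      have h4 := hr_pow (Nat.cast_nonneg (α := ℝ) p)
      have h5 : hr (p : ℝ) ^ 4 ≤ 1 := pow_le_one₀ (hr_nonneg _) (not_lt.1 hcon)
      linarith
    exact inv_lt_one_of_one_lt₀ (one_lt_pow₀ h3 (by norm_num))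
  obtain ⟨-, hsum⟩ := EulerProduct.summable_and_hasSum_factoredNumbers_prod_filter_prime_geometric
    (f := fqHom) hlt a.primeFactors
  have hfil : a.primeFactors.filter Nat.Prime = a.primeFactors :=
    Finset.filter_true_of_mem fun p hp => Nat.prime_of_mem_primeFactors hp
  rw [hfil] at hsum
  have hsum' : HasSum ((Nat.factoredNumbers a.primeFactors).indicator (fun n => fq n))
      (∏ p ∈ a.primeFactors, (1 - fqHom p)⁻¹) := by
    rw [← hasSum_subtype_iff_indicator]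
    exact hsum
  have h1 : ∑ d ∈ a.divisors, (Nat.factoredNumbers a.primeFactors).indicator (fun n => fq n) d ≤
      ∏ p ∈ a.primeFactors, (1 - fqHom p)⁻¹ :=
    sum_le_hasSum _ (fun d _ => Set.indicator_nonneg (fun n _ => fq_nonneg n) d) hsum'
  have h2 : ∑ d ∈ a.divisors, (Nat.factoredNumbers a.primeFactors).indicator (fun n => fq n) d =
      ∑ d ∈ a.divisors, fq d := by
    refine Finset.sum_congr rfl fun d hd => ?_
    rw [Set.indicator_of_mem]
    rw [Nat.mem_factoredNumbers]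
    have hd' := Nat.mem_divisors.1 hd
    refine ⟨fun h0 => ha (by rw [h0] at hd'; exact Nat.eq_zero_of_zero_dvd hd'.1), ?_⟩
    intro p hp
    rw [Nat.mem_primeFactors]
    exact ⟨Nat.prime_of_mem_primeFactorsList hp,
      (Nat.dvd_of_mem_primeFactorsList hp).trans hd'.1, ha⟩
  rw [h2] at h1
  have h3 : ∑ d ∈ a.divisors, fq d = ∑ d ∈ a.divisors.erase 1, fq d + 1 := by
    rw [← Finset.sum_erase_add _ _ (Nat.one_mem_divisors.2 ha), fq_one]
  set X := ∑ P ∈ a.primeFactors, fq P with hXdef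
  have hX0 : 0 ≤ X := Finset.sum_nonneg fun P _ => fq_nonneg P
  have h4 : 1 - X ≤ ∏ p ∈ a.primeFactors, (1 - fq p) := by
    refine prod_one_sub_ge _ _ (fun p _ => fq_nonneg p) fun p hp => ?_
    have := hlt (Nat.prime_of_mem_primeFactors hp)
    have h1 : fqHom p = fq p := rfl
    rw [h1, Real.norm_eq_abs, abs_of_nonneg (fq_nonneg p)] at this
    exact this.le
  have h5 : ∏ p ∈ a.primeFactors, (1 - fqHom p)⁻¹ = (∏ p ∈ a.primeFactors, (1 - fq p))⁻¹ := by
    rw [Finset.prod_inv_distrib]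
    rfl
  rw [h5, h3] at h1
  have h6 : (∏ p ∈ a.primeFactors, (1 - fq p))⁻¹ ≤ (1 - X)⁻¹ :=
    inv_anti₀ (by linarith) h4
  have h7 : (1 - X)⁻¹ ≤ 1 + 2 * X := by
    rw [inv_le_iff_one_le_mul₀ (by linarith)]
    nlinarith
  linarith

/-- The fiber over one divisor. -/
theorem fiber_le (l d : ℕ) (hl : 1 ≤ l) (hd : 2 * l + 1 ≤ d) (S : Finset ℕ)
    (hS : ∀ p ∈ S, p.Prime ∧ p ∣ (2 ^ (5 * l)) ^ d - 1 ∧ d ∣ p - 1) :
    ∑ p ∈ S, (1 : ℝ) / p ≤ 12 * fq d := by
  have hd0 : (0 : ℝ) < d := by exact_mod_cast (by omega : 0 < d)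
  have hpow : (2 ^ (5 * l)) ^ d = 2 ^ (5 * l * d) := by rw [← pow_mul]
  have hpos : 1 < (2 ^ (5 * l)) ^ d := by
    rw [hpow]
    refine Nat.one_lt_two_pow (Nat.mul_ne_zero (by omega) (by omega))
  have hcard : S.card ≤ 5 * l * d := by
    have h1 : S ⊆ ((2 ^ (5 * l)) ^ d - 1).primeFactors := by
      intro p hp
      obtain ⟨h1, h2, -⟩ := hS p hp
      exact Nat.mem_primeFactors.2 ⟨h1, h2, by omega⟩
    have h2 := Finset.card_le_card h1
    have h3 := two_pow_card_primeFactors_le (n := (2 ^ (5 * l)) ^ d - 1) (by omega)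
    have h4 : 2 ^ S.card < 2 ^ (5 * l * d) :=
      lt_of_le_of_lt ((Nat.pow_le_pow_right (by norm_num) h2).trans h3) (by omega)
    exact ((Nat.pow_lt_pow_iff_right (by norm_num)).1 h4).le
  have hm : ∀ p ∈ S, 1 ≤ (p - 1) / d ∧ p = d * ((p - 1) / d) + 1 := by
    intro p hp
    obtain ⟨h1, -, h2⟩ := hS p hp
    have h3 : d * ((p - 1) / d) = p - 1 := Nat.mul_div_cancel' h2
    have h4 := h1.two_le
    refine ⟨?_, by omega⟩
    rw [Nat.one_le_div_iff (by omega)]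
    exact Nat.le_of_dvd (by omega) h2
  have hinj : Set.InjOn (fun p => (p - 1) / d) (S : Set ℕ) := by
    intro p hp p' hp' h
    have h1 := (hm p hp).2
    have h2 := (hm p' hp').2
    simp only at h
    rw [h] at h1
    omega
  have h1 : ∑ p ∈ S, (1 : ℝ) / p ≤ (1 / d) * ∑ m ∈ S.image (fun p => (p - 1) / d), (1 : ℝ) / m := by
    rw [Finset.sum_image hinj, Finset.mul_sum]
    refine Finset.sum_le_sum fun p hp => ?_
    obtain ⟨h1, h2⟩ := hm p hp
    rw [one_div_mul_one_div]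
    refine one_div_le_one_div_of_le ?_ ?_
    · have : (0 : ℝ) < (((p - 1) / d : ℕ) : ℝ) := by exact_mod_cast h1
      positivity
    · have h3 : d * ((p - 1) / d) ≤ p := by omega
      exact_mod_cast h3
  have h2 := sum_inv_le (S.image (fun p => (p - 1) / d)) (by
    intro m hm'
    obtain ⟨p, hp, rfl⟩ := Finset.mem_image.1 hm'
    exact (hm p hp).1) (5 * l * d) (by
      have : 0 < 5 * l * d := by
        have : 0 < d := by omega
        positivity
      omega) (Finset.card_image_le.trans hcard)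
  have h3 : Real.log ((5 * l * d : ℕ) : ℝ) ≤ 2 + 8 * hr d := by
    have h4 : ((5 * l * d : ℕ) : ℝ) ≤ 4 * (d : ℝ) ^ 2 := by
      have : 5 * l * d ≤ 4 * d ^ 2 := by nlinarith
      exact_mod_cast this
    have h5 : (0 : ℝ) < ((5 * l * d : ℕ) : ℝ) := by
      have : 0 < 5 * l * d := by
        have : 0 < d := by omega
        positivity
      exact_mod_cast this
    have h6 := Real.log_le_log h5 h4
    have h7 : Real.log (4 * (d : ℝ) ^ 2) = 2 * Real.log 2 + 2 * Real.log d := by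
      rw [Real.log_mul (by norm_num) (by positivity), Real.log_pow]
      have : (4 : ℝ) = 2 ^ 2 := by norm_num
      rw [this, Real.log_pow]
      norm_num
    have h8 := log_le_hr hd0
    have h9 := Real.log_le_sub_one_of_pos (show (0 : ℝ) < 2 by norm_num)
    linarith
  have h4 : 1 ≤ hr (d : ℝ) := one_le_hr (by exact_mod_cast (by omega : 1 ≤ d))
  have h5 : ∑ p ∈ S, (1 : ℝ) / p ≤ (1 / d) * (12 * hr d) :=
    h1.trans (mul_le_mul_of_nonneg_left (by linarith) (by positivity))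
  have h6 : (1 / (d : ℝ)) * (12 * hr d) = 12 * fq d := by
    have h7 := hr_pow hd0.le
    rw [fq]
    have h8 : (1 / (d : ℝ)) = 1 / hr (d : ℝ) ^ 4 := by rw [h7]
    rw [h8]
    field_simp
  rw [← h6]
  exact h5

theorem prime_fermat_ge {i P : ℕ} (hP : P.Prime) (hdvd : P ∣ 2 ^ 2 ^ i + 1) :
    ∃ k, 1 ≤ k ∧ P = k * (2 * 2 ^ i) + 1 := by
  have h2 : P ≠ 2 := by
    rintro rfl
    have h1 : 2 ∣ 2 ^ 2 ^ i := dvd_pow_self 2 (by positivity)
    have := (Nat.dvd_add_right h1).1 hdvd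
    omega
  obtain ⟨k, hk⟩ := Nat.pow_pow_add_primeFactors_one_lt hP h2 hdvd
  refine ⟨k, ?_, ?_⟩
  · rcases Nat.eq_zero_or_pos k with h | h
    · exfalso
      rw [h, zero_mul] at hk
      have := hP.two_le
      omega
    · exact h
  · rw [hk, pow_succ]
    ring

theorem divisor_fermat_ge {i d : ℕ} (hd : d ∣ 2 ^ 2 ^ i + 1) (hd1 : d ≠ 1) :
    2 * 2 ^ i + 1 ≤ d := by
  obtain ⟨P, hP, hPd⟩ := Nat.exists_prime_and_dvd hd1
  obtain ⟨k, hk, hP'⟩ := prime_fermat_ge hP (hPd.trans hd)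
  have h1 : 0 < d := Nat.pos_of_ne_zero (by
    rintro rfl
    have h0 := Nat.eq_zero_of_zero_dvd hd
    exact absurd h0 (Nat.succ_ne_zero _))
  have h2 := Nat.le_of_dvd h1 hPd
  have h3 : 1 * (2 * 2 ^ i) ≤ k * (2 * 2 ^ i) := Nat.mul_le_mul_right _ hk
  omega

theorem sum_primeFactors_fermat (i l : ℕ) (hl : l = 2 ^ i) :
    ∑ P ∈ (2 ^ l + 1).primeFactors, fq P ≤ 5 / Real.sqrt (l : ℝ) := by
  have hl1 : 1 ≤ l := hl ▸ Nat.one_le_two_pow
  obtain ⟨S, hS⟩ : ∃ S, S = (2 ^ l + 1).primeFactors := ⟨_, rfl⟩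
  rw [← hS]
  have hk : ∀ P ∈ S, 1 ≤ (P - 1) / (2 * l) ∧ P = (P - 1) / (2 * l) * (2 * l) + 1 := by
    intro P hP
    rw [hS, hl] at hP
    obtain ⟨k, hk1, hk2⟩ := prime_fermat_ge (i := i) (Nat.prime_of_mem_primeFactors hP)
      (Nat.dvd_of_mem_primeFactors hP)
    rw [← hl] at hk2
    have h3 : (P - 1) / (2 * l) = k := by
      rw [hk2, Nat.add_sub_cancel]
      exact Nat.mul_div_cancel _ (by omega)
    rw [h3]
    exact ⟨hk1, hk2⟩
  have hcard : S.card ≤ l := by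
    have h1 := two_pow_card_primeFactors_le (n := 2 ^ l + 1) (by positivity)
    rw [← hS] at h1
    have h2 : 2 ^ l + 1 < 2 ^ (l + 1) := by
      have : 2 ^ 1 ≤ 2 ^ l := Nat.pow_le_pow_right (by norm_num) hl1
      rw [pow_succ]
      omega
    have h3 := (Nat.pow_lt_pow_iff_right (by norm_num : 1 < 2)).1 (lt_of_le_of_lt h1 h2)
    omega
  have hinj : Set.InjOn (fun P => (P - 1) / (2 * l)) (S : Set ℕ) := by
    intro p hp p' hp' h
    have h1 := (hk p hp).2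
    have h2 := (hk p' hp').2
    simp only at h
    rw [h] at h1
    omega
  have h1 : ∑ P ∈ S, fq P ≤ fq l * ∑ m ∈ S.image (fun P => (P - 1) / (2 * l)), fq m := by
    rw [Finset.sum_image hinj, Finset.mul_sum]
    refine Finset.sum_le_sum fun p hp => ?_
    obtain ⟨h1, h2⟩ := hk p hp
    rw [← fq_mul]
    refine fq_anti (Nat.mul_pos hl1 h1) ?_
    calc l * ((p - 1) / (2 * l)) ≤ (p - 1) / (2 * l) * (2 * l) + 1 := by nlinarith
      _ = p := h2.symm
  have h2 := sum_fq_le' (S.image (fun P => (P - 1) / (2 * l))) (by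
    intro m hm'
    obtain ⟨p, hp, rfl⟩ := Finset.mem_image.1 hm'
    exact (hk p hp).1) l hl1 (Finset.card_image_le.trans hcard)
  have hl0 : (0 : ℝ) < hr (l : ℝ) := hr_pos (by exact_mod_cast hl1)
  have h3 : fq l * (5 * hr (l : ℝ)) = 5 / Real.sqrt (l : ℝ) := by
    have h4 : Real.sqrt (l : ℝ) = hr (l : ℝ) ^ 2 := (Real.sq_sqrt (Real.sqrt_nonneg _)).symm
    rw [h4, fq]
    field_simp
  rw [← h3]
  exact h1.trans (mul_le_mul_of_nonneg_left h2 (fq_nonneg l))

/-- The primes dividing `q ^ a - 1` but not `q - 1`. -/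
def PD (q a : ℕ) : Finset ℕ := (q ^ a - 1).primeFactors.filter (fun p => ¬ p ∣ q - 1)

/-- The sum of the inverses of the primes dividing `q ^ a - 1` but not `q - 1`. -/
theorem primes_sum (i l a q : ℕ) (hi : 16 ≤ i) (hl : l = 2 ^ i) (ha : a = 2 ^ l + 1)
    (hq : q = 2 ^ (5 * l)) : ∑ p ∈ PD q a, (1 : ℝ) / (p : ℝ) ≤ 1 / 2 := by
  have hl1 : 1 ≤ l := hl ▸ Nat.one_le_two_pow
  have ha0 : a ≠ 0 := by
    rw [ha]
    exact Nat.succ_ne_zero _
  have hq1 : 1 < q := by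
    rw [hq]
    exact Nat.one_lt_two_pow (by omega)
  have hqa : 1 < q ^ a := Nat.one_lt_pow ha0 hq1
  have hl' : (65536 : ℝ) ≤ l := by
    have : 2 ^ 16 ≤ l := hl ▸ Nat.pow_le_pow_right (by norm_num) hi
    have h2 : (65536 : ℕ) ≤ l := by norm_num at this; exact this
    exact_mod_cast h2
  have hsq : (256 : ℝ) ≤ Real.sqrt l := by
    refine Real.le_sqrt_of_sq_le ?_
    have : (256 : ℝ) ^ 2 = 65536 := by norm_num
    rw [this]
    exact hl'
  have hX := sum_primeFactors_fermat i l hl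
  rw [← ha] at hX
  have hX' : 5 / Real.sqrt (l : ℝ) ≤ 5 / 256 :=
    div_le_div_of_nonneg_left (by norm_num) (by norm_num) hsq
  have hD := sum_divisors_le a ha0 (by linarith)
  have hord : ∀ p ∈ PD q a, orderOf (q : ZMod p) ∈ a.divisors.erase 1 ∧
      p ∣ q ^ orderOf (q : ZMod p) - 1 ∧ orderOf (q : ZMod p) ∣ p - 1 ∧ p.Prime := by
    intro p hp
    rw [PD, Finset.mem_filter, Nat.mem_primeFactors] at hp
    obtain ⟨⟨hpp, hpd, -⟩, hpq⟩ := hp
    have : Fact p.Prime := ⟨hpp⟩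
    have h1 : ∀ k, p ∣ q ^ k - 1 ↔ (q : ZMod p) ^ k = 1 := by
      intro k
      have h2 : 1 ≤ q ^ k := Nat.one_le_pow _ _ (by omega)
      rw [← ZMod.natCast_eq_zero_iff, Nat.cast_sub h2, sub_eq_zero]
      push_cast
      exact Iff.rfl
    refine ⟨?_, ?_, ?_, hpp⟩
    · rw [Finset.mem_erase, Nat.mem_divisors]
      refine ⟨?_, orderOf_dvd_of_pow_eq_one ((h1 a).1 hpd), ha0⟩
      intro h
      apply hpq
      have h2 := (h1 1).2 (by rw [pow_one]; exact orderOf_eq_one_iff.1 h)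
      rwa [pow_one] at h2
    · exact (h1 _).2 (pow_orderOf_eq_one _)
    · refine ZMod.orderOf_dvd_card_sub_one ?_
      intro h
      have h2 := (h1 a).1 hpd
      rw [h, zero_pow ha0] at h2
      exact zero_ne_one h2
  have h1 : ∑ p ∈ PD q a, (1 : ℝ) / (p : ℝ) = ∑ d ∈ a.divisors.erase 1,
      ∑ p ∈ PD q a with orderOf (q : ZMod p) = d, (1 : ℝ) / (p : ℝ) :=
    (Finset.sum_fiberwise_of_maps_to (fun p hp => (hord p hp).1) _).symm
  have h2 : ∑ p ∈ PD q a, (1 : ℝ) / (p : ℝ) ≤ ∑ d ∈ a.divisors.erase 1, 12 * fq d := by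
    rw [h1]
    refine Finset.sum_le_sum fun d hd => ?_
    rw [Finset.mem_erase, Nat.mem_divisors] at hd
    refine fiber_le l d hl1 (hl ▸ divisor_fermat_ge (i := i) ?_ hd.1) _ ?_
    · rw [← hl, ← ha]
      exact hd.2.1
    intro p hp
    rw [Finset.mem_filter] at hp
    obtain ⟨h3, h4, h5, h6⟩ := hord p hp.1
    rw [hp.2] at h4 h5
    rw [hq] at h4
    exact ⟨h6, h4, h5⟩
  rw [← Finset.mul_sum] at h2
  linarith

theorem primes_card (l a q : ℕ) (hl : 1 ≤ l) (ha : a ≠ 0) (hq : q = 2 ^ (5 * l)) :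
    (PD q a).card ≤ 5 * l * a := by
  refine (Finset.card_filter_le _ _).trans ?_
  have hq1 : 1 < q := by
    rw [hq]
    exact Nat.one_lt_two_pow (by omega)
  have h0 : 1 < q ^ a := Nat.one_lt_pow ha hq1
  have h1 := two_pow_card_primeFactors_le (n := q ^ a - 1) (by omega)
  have h2 : 2 ^ (q ^ a - 1).primeFactors.card < 2 ^ (5 * l * a) := by
    rw [pow_mul, ← hq]
    omega
  exact ((Nat.pow_lt_pow_iff_right (by norm_num)).1 h2).le

end Pool.Agent.Helper3.PP
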