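import Mathlib

/-!
# The structure of the trinomials (MP_4ed2e5_nt)
-/

set_option autoImplicit false
set_option linter.unusedSectionVars false

namespace Pool.Agent.Helper3.PP

open Polynomial

section
variable {K : Type*} [Field K] [CharP K 2]

theorem add_self_zero (x : K) : x + x = 0 := CharTwo.add_self_eq_zero x

theorem add_pow_two (e : ℕ) (x y : K) : (x + y) ^ (2 ^ e) = x ^ (2 ^ e) + y ^ (2 ^ e) :=
  add_pow_char_pow x y 2 e

theorem add_pow_two' (e k : ℕ) (x y : K) :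
    (x + y) ^ ((2 ^ e) ^ k) = x ^ ((2 ^ e) ^ k) + y ^ ((2 ^ e) ^ k) := by
  rw [← pow_mul]
  exact add_pow_char_pow x y 2 _

theorem pow_two_inj (e : ℕ) {x y : K} (h : x ^ (2 ^ e) = y ^ (2 ^ e)) : x = y := by
  have h1 : (x + y) ^ (2 ^ e) = 0 := by rw [add_pow_two, h, add_self_zero]
  have h2 : x + y = 0 := pow_eq_zero_iff (by positivity) |>.1 h1
  have h3 := CharTwo.add_eq_zero.1 h2
  exact h3

theorem pow_two_inj' (e k : ℕ) {x y : K} (h : x ^ ((2 ^ e) ^ k) = y ^ ((2 ^ e) ^ k)) :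
    x = y := by
  rw [← pow_mul] at h
  exact pow_two_inj _ h

/-- The data. -/
structure Dat (K : Type*) [Field K] (l : ℕ) where
  τ : K
  v₀ : K
  ord : orderOf τ = 2 ^ l + 1
  ne : v₀ ≠ 0
  rel : v₀ ^ ((2 ^ (5 * l)) ^ 2) + (τ + τ⁻¹) * v₀ ^ (2 ^ (5 * l)) + v₀ = 0

theorem exists_dat [IsAlgClosed K] (l : ℕ) (hl : 1 ≤ l) : Nonempty (Dat K l) := by
  have h2 : ((2 ^ l + 1 : ℕ) : K) ≠ 0 := by
    have h0 : ((2 : ℕ) : K) = 0 := CharP.cast_eq_zero K 2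
    push_cast at h0 ⊢
    rw [h0, zero_pow (by omega)]
    simp
  have : NeZero ((2 ^ l + 1 : ℕ) : K) := ⟨h2⟩
  obtain ⟨τ, hτ⟩ := HasEnoughRootsOfUnity.exists_primitiveRoot K (2 ^ l + 1)
  have hord : orderOf τ = 2 ^ l + 1 := hτ.eq_orderOf.symm
  set q := 2 ^ (5 * l) with hq
  have hq1 : 1 < q := Nat.one_lt_two_pow (by omega)
  have hq2 : q < q ^ 2 := by nlinarith
  obtain ⟨v, hv⟩ := IsAlgClosed.exists_root
    ((X : K[X]) ^ (q ^ 2 - 1) + C (τ + τ⁻¹) * X ^ (q - 1) + 1) (by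
      have h1 : ((X : K[X]) ^ (q ^ 2 - 1) + C (τ + τ⁻¹) * X ^ (q - 1) + 1).degree =
          ((q ^ 2 - 1 : ℕ) : WithBot ℕ) := by
        rw [add_assoc]
        refine (degree_add_eq_left_of_degree_lt ?_).trans (degree_X_pow _)
        rw [degree_X_pow]
        refine (degree_add_le _ _).trans_lt (max_lt ?_ ?_)
        · refine (degree_C_mul_X_pow_le _ _).trans_lt ?_
          exact_mod_cast (by omega : q - 1 < q ^ 2 - 1)
        · rw [degree_one]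
          exact_mod_cast (by omega : 0 < q ^ 2 - 1)
      rw [h1]
      exact_mod_cast (by omega : q ^ 2 - 1 ≠ 0))
  rw [IsRoot, eval_add, eval_add, eval_pow, eval_X, eval_mul, eval_C, eval_pow, eval_X,
    eval_one] at hv
  refine ⟨⟨τ, v, hord, ?_, ?_⟩⟩
  · rintro rfl
    rw [zero_pow (by omega), zero_pow (by omega)] at hv
    simp at hv
  · have h1 : v ^ (q ^ 2) = v ^ (q ^ 2 - 1) * v := by
      rw [← pow_succ]
      congr 1
      omega
    have h3 : v ^ q = v ^ (q - 1) * v := by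
      rw [← pow_succ]
      congr 1
      omega
    rw [h1, h3]
    linear_combination v * hv

namespace Dat

variable {l : ℕ} (D : Dat K l)

/-- `t`. -/
def t : K := D.τ + D.τ⁻¹

/-- `S k`. -/
def S (k : ℕ) : K := D.τ ^ k + D.τ⁻¹ ^ k

/-- `u k`. -/
def u (k : ℕ) : K := D.v₀ ^ ((2 ^ (5 * l)) ^ k)

/-- `θ`. -/
def θ : K := D.v₀ ^ (2 ^ (5 * l) - 1)

theorem τ_pow : D.τ ^ (2 ^ l + 1) = 1 := by
  rw [← D.ord]
  exact pow_orderOf_eq_one _

theorem τ_ne : D.τ ≠ 0 := by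
  intro h
  have := D.τ_pow
  rw [h, zero_pow (Nat.succ_ne_zero _)] at this
  exact zero_ne_one this

theorem τ_Q : D.τ ^ (2 ^ l) = D.τ⁻¹ := by
  have h := D.τ_pow
  rw [pow_succ] at h
  exact eq_inv_of_mul_eq_one_left h

theorem τ_inv_Q : D.τ⁻¹ ^ (2 ^ l) = D.τ := by
  rw [inv_pow, D.τ_Q, inv_inv]

theorem dvd_q : 2 ^ l + 1 ∣ 2 ^ (5 * l) + 1 := by
  have h : Odd 5 := by decide
  have := h.nat_add_dvd_pow_add_pow (2 ^ l) 1
  rw [one_pow, ← pow_mul, mul_comm l 5] at this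
  exact this

theorem t_Q : D.t ^ (2 ^ l) = D.t := by
  rw [t, add_pow_two, D.τ_Q, D.τ_inv_Q, add_comm]

theorem pow_of_Q {x : K} (h : x ^ (2 ^ l) = x) : ∀ k, x ^ (2 ^ (k * l)) = x := by
  intro k
  induction k with
  | zero => simp
  | succ k ih => rw [add_mul, one_mul, pow_add, pow_mul, ih, h]

theorem t_q : D.t ^ (2 ^ (5 * l)) = D.t := pow_of_Q D.t_Q 5

theorem pow_of_q {x : K} (h : x ^ (2 ^ (5 * l)) = x) : ∀ k, x ^ ((2 ^ (5 * l)) ^ k) = x := by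
  intro k
  induction k with
  | zero => simp
  | succ k ih => rw [pow_succ, pow_mul, ih, h]

theorem S_ne {k : ℕ} (h0 : 0 < k) (hk : k < 2 ^ l + 1) (hl : 1 ≤ l) : D.S k ≠ 0 := by
  intro h
  have h1 : D.τ ^ k = (D.τ ^ k)⁻¹ := by
    rw [S, inv_pow] at h
    exact CharTwo.add_eq_zero.1 h
  have h2 : D.τ ^ (k * 2) = 1 := by
    rw [pow_mul, sq]
    nth_rewrite 1 [h1]
    exact inv_mul_cancel₀ (pow_ne_zero _ D.τ_ne)
  have h3 := orderOf_dvd_of_pow_eq_one h2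
  rw [D.ord] at h3
  have h4 : Nat.Coprime (2 ^ l + 1) 2 := by
    rw [Nat.coprime_two_right]
    obtain ⟨l', rfl⟩ : ∃ l', l = l' + 1 := ⟨l - 1, by omega⟩
    exact ⟨2 ^ l', by ring⟩
  have h5 := h4.dvd_of_dvd_mul_right h3
  have := Nat.le_of_dvd h0 h5
  omega

theorem t_ne (hl : 1 ≤ l) : D.t ≠ 0 := by
  have h := D.S_ne (k := 1) (by norm_num) (by have := Nat.one_le_two_pow (n := l); omega) hl
  rwa [S, pow_one, pow_one] at h

theorem S_rec (k : ℕ) : D.S (k + 2) = D.t * D.S (k + 1) + D.S k := by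
  have h := D.τ_ne
  have h2 := add_self_zero (D.S k)
  rw [S, S, t, S] at *
  have h3 : D.τ * D.τ⁻¹ = 1 := mul_inv_cancel₀ h
  linear_combination (- D.τ ^ k - D.τ⁻¹ ^ k) * h3 - h2

theorem u_rec (k : ℕ) : D.u (k + 2) = D.t * D.u (k + 1) + D.u k := by
  have h := congrArg (fun x => x ^ ((2 ^ (5 * l)) ^ k)) D.rel
  have ht : (D.τ + D.τ⁻¹) ^ ((2 ^ (5 * l)) ^ k) = D.t := pow_of_q D.t_q k
  have h1 : (D.v₀ ^ ((2 ^ (5 * l)) ^ 2)) ^ ((2 ^ (5 * l)) ^ k) = D.u (k + 2) := by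
    rw [u, ← pow_mul]
    congr 1
    ring
  have h2 : (D.v₀ ^ (2 ^ (5 * l))) ^ ((2 ^ (5 * l)) ^ k) = D.u (k + 1) := by
    rw [u, ← pow_mul]
    congr 1
    ring
  have h3 : D.v₀ ^ ((2 ^ (5 * l)) ^ k) = D.u k := rfl
  rw [add_pow_two', add_pow_two', mul_pow, ht, h1, h2, h3, zero_pow (by positivity),
    add_assoc] at h
  exact CharTwo.add_eq_zero.1 h

theorem u_zero : D.u 0 = D.v₀ := by simp [u]

theorem u_pow (i k : ℕ) : (D.u i) ^ ((2 ^ (5 * l)) ^ k) = D.u (i + k) := by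
  rw [u, u, ← pow_mul, ← pow_add]

theorem u_pow' (i : ℕ) : (D.u i) ^ (2 ^ (5 * l)) = D.u (i + 1) := by
  have := D.u_pow i 1
  rwa [pow_one] at this

theorem u_one : D.u 1 = D.θ * D.v₀ := by
  have h : 1 ≤ 2 ^ (5 * l) := Nat.one_le_two_pow
  rw [u, θ, ← pow_succ, pow_one]
  congr 1
  omega

theorem u_closed (k : ℕ) : D.t * D.u (k + 1) = D.S (k + 1) * D.u 1 + D.S k * D.u 0 ∧
    D.t * D.u (k + 2) = D.S (k + 2) * D.u 1 + D.S (k + 1) * D.u 0 := by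
  have h00 : D.S 0 = 0 := by
    rw [S, pow_zero, pow_zero]
    exact add_self_zero 1
  have h1 : D.S 1 = D.t := by rw [S, pow_one, pow_one, t]
  induction k with
  | zero =>
    refine ⟨?_, ?_⟩
    · rw [h00, zero_add, h1]
      ring
    · have h2 := D.S_rec 0
      have h3 := D.u_rec 0
      simp only [zero_add] at h2 h3 ⊢
      rw [h2, h3, h00, h1]
      ring
  | succ k ih =>
    refine ⟨ih.2, ?_⟩
    have h2 := D.S_rec (k + 1)
    have h3 := D.u_rec (k + 1)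
    have h4 := D.S_rec k
    have e1 : k + 1 + 2 = k + 3 := rfl
    have e2 : k + 1 + 1 = k + 2 := rfl
    rw [e1, e2] at *
    rw [h2, h3]
    linear_combination D.t * ih.2 + ih.1 - D.u 0 * h4

theorem u_last (hl : 1 ≤ l) : D.u (2 ^ l + 1) = D.v₀ := by
  have h := (D.u_closed (2 ^ l)).1
  have h1 : D.S (2 ^ l + 1) = 0 := by
    rw [S, inv_pow, D.τ_pow, inv_one]
    exact add_self_zero 1
  have h2 : D.S (2 ^ l) = D.t := by
    rw [S, D.τ_Q, D.τ_inv_Q, t, add_comm]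
  rw [h1, h2, zero_mul, zero_add, u_zero] at h
  exact mul_left_cancel₀ (D.t_ne hl) h

theorem θ_ne : D.θ ≠ 0 := pow_ne_zero _ D.ne

theorem θ_rel : D.θ ^ (2 ^ (5 * l) + 1) + D.t * D.θ + 1 = 0 := by
  have h := D.u_rec 0
  have h2 : D.u 2 = D.θ ^ (2 ^ (5 * l) + 1) * D.v₀ := by
    have h3 : D.u 2 = (D.u 1) ^ (2 ^ (5 * l)) := (D.u_pow' 1).symm
    have h4 : D.v₀ ^ (2 ^ (5 * l)) = D.θ * D.v₀ := by
      rw [← u_one, u, pow_one]
    rw [h3, u_one, mul_pow, h4, pow_succ]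
    ring
  simp only [zero_add] at h
  rw [h2, u_one, u_zero] at h
  have h5 : (D.θ ^ (2 ^ (5 * l) + 1) + D.t * D.θ + 1) * D.v₀ = 0 := by
    have h6 := add_self_zero ((D.t * D.θ + 1) * D.v₀)
    linear_combination h + h6
  exact (mul_eq_zero.1 h5).resolve_right D.ne

/-- The quadratic equation has only the roots `τ` and `τ⁻¹`. -/
theorem quad {x : K} (h : x ^ 2 + D.t * x + 1 = 0) : x = D.τ ∨ x = D.τ⁻¹ := by
  have h1 : (x + D.τ) * (x + D.τ⁻¹) = 0 := by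
    have h2 : D.τ * D.τ⁻¹ = 1 := mul_inv_cancel₀ D.τ_ne
    rw [t] at h
    linear_combination h + h2
  rcases mul_eq_zero.1 h1 with h2 | h2
  · exact Or.inl (CharTwo.add_eq_zero.1 h2)
  · exact Or.inr (CharTwo.add_eq_zero.1 h2)

theorem quad_false (hl : 1 ≤ l) (h : D.θ ^ 2 + D.t * D.θ + 1 = 0) : False := by
  obtain ⟨c, hc⟩ := dvd_q (l := l)
  have h1 : D.θ ^ (2 ^ (5 * l) + 1) = 1 := by
    rw [hc, pow_mul]
    rcases D.quad h with h2 | h2
    · rw [h2, D.τ_pow, one_pow]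
    · rw [h2, inv_pow, D.τ_pow, inv_one, one_pow]
  have h2 := D.θ_rel
  rw [h1] at h2
  have h3 : D.t * D.θ = 0 := by
    have h4 := add_self_zero (1 : K)
    linear_combination h2 - h4
  exact mul_ne_zero (D.t_ne hl) D.θ_ne h3

theorem θ_fix_false (hl : 1 ≤ l) {k : ℕ} (h0 : 0 < k) (hk : k < 2 ^ l + 1)
    (h : D.θ ^ ((2 ^ (5 * l)) ^ k) = D.θ) : False := by
  have h1 : D.u (k + 1) = D.θ * D.u k := by
    have h3 : D.u (k + 1) = (D.u 1) ^ ((2 ^ (5 * l)) ^ k) := by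
      rw [u_pow, add_comm]
    rw [h3, u_one, mul_pow, h]
    rfl
  obtain ⟨j, rfl⟩ : ∃ j, k = j + 1 := ⟨k - 1, by omega⟩
  obtain ⟨h2, h3⟩ := D.u_closed j
  have h4 := D.S_rec j
  have h5 : D.S (j + 1) * (D.θ ^ 2 + D.t * D.θ + 1) * D.v₀ = 0 := by
    rw [u_one, u_zero] at h2 h3
    have e1 : j + 1 + 1 = j + 2 := rfl
    rw [e1] at h1
    have h6 := add_self_zero (D.S (j + 1) * D.v₀)
    have h7 : D.t * D.u (j + 2) = D.θ * (D.t * D.u (j + 1)) := by rw [h1]; ring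
    rw [h2, h3, h4] at h7
    linear_combination (-1 : K) * h7 + h6 +
      add_self_zero (D.t * D.S (j + 1) * D.θ * D.v₀)
  have h6 := D.S_ne h0 hk hl
  have h7 : D.θ ^ 2 + D.t * D.θ + 1 = 0 := by
    have h8 := (mul_eq_zero.1 h5).resolve_right D.ne
    exact (mul_eq_zero.1 h8).resolve_left h6
  exact D.quad_false hl h7

theorem θ_inj (hl : 1 ≤ l) : ∀ i < 2 ^ l + 1, ∀ j < 2 ^ l + 1,
    D.θ ^ ((2 ^ (5 * l)) ^ i) = D.θ ^ ((2 ^ (5 * l)) ^ j) → i = j := by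
  have key : ∀ i j, i ≤ j → j < 2 ^ l + 1 →
      D.θ ^ ((2 ^ (5 * l)) ^ i) = D.θ ^ ((2 ^ (5 * l)) ^ j) → i = j := by
    intro i j hij hj h
    obtain ⟨k, rfl⟩ := Nat.exists_eq_add_of_le hij
    rcases Nat.eq_zero_or_pos k with hk | hk
    · rw [hk, add_zero]
    exfalso
    have h' : D.θ ^ ((2 ^ (5 * l)) ^ i) = (D.θ ^ ((2 ^ (5 * l)) ^ k)) ^ ((2 ^ (5 * l)) ^ i) := by
      rw [h, ← pow_mul D.θ, ← pow_add, add_comm k i]
    exact D.θ_fix_false hl hk (by omega) (pow_two_inj' _ _ h').symm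
  intro i hi j hj h
  rcases le_total i j with h1 | h1
  · exact key i j h1 hj h
  · exact (key j i h1 hi h.symm).symm

/-- The vectors. -/
def v (μ : K) : K := D.v₀ * (D.θ + μ)

theorem v_eq (μ : K) : D.v μ = D.u 1 + μ * D.u 0 := by
  rw [v, u_one, u_zero]
  ring

theorem v_ne (hl : 1 ≤ l) {μ : K} (hμ : μ ^ (2 ^ (5 * l)) = μ) : D.v μ ≠ 0 := by
  intro h
  have h1 := (mul_eq_zero.1 h).resolve_left D.ne
  have h2 : D.θ = μ := CharTwo.add_eq_zero.1 h1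
  refine D.θ_fix_false hl (k := 1) one_pos ?_ ?_
  · have := Nat.one_le_two_pow (n := l)
    omega
  · rw [pow_one, h2, hμ]

theorem v_pow {μ : K} (hμ : μ ^ (2 ^ (5 * l)) = μ) (k : ℕ) :
    (D.v μ) ^ ((2 ^ (5 * l)) ^ k) = D.u (k + 1) + μ * D.u k := by
  rw [v_eq, add_pow_two', mul_pow, pow_of_q hμ]
  have h1 : D.u 1 ^ ((2 ^ (5 * l)) ^ k) = D.u (k + 1) := by
    rw [u_pow, add_comm]
  have h2 : D.u 0 ^ ((2 ^ (5 * l)) ^ k) = D.u k := by
    rw [u_zero]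
    rfl
  rw [h1, h2]

theorem v_last (hl : 1 ≤ l) {μ : K} (hμ : μ ^ (2 ^ (5 * l)) = μ) :
    (D.v μ) ^ ((2 ^ (5 * l)) ^ (2 ^ l + 1)) = D.v μ := by
  rw [D.v_pow hμ, D.u_last hl, v_eq, u_zero]
  have h1 : D.u (2 ^ l + 1 + 1) = (D.u (2 ^ l + 1)) ^ (2 ^ (5 * l)) := (D.u_pow' _).symm
  rw [h1, D.u_last hl]
  congr 1
  rw [u, pow_one]

theorem v_rel {μ : K} (hμ : μ ^ (2 ^ (5 * l)) = μ) :
    ((D.v μ) ^ (2 ^ (5 * l))) ^ (2 ^ (5 * l)) = D.t * (D.v μ) ^ (2 ^ (5 * l)) + D.v μ := by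
  have h1 : ((D.v μ) ^ (2 ^ (5 * l))) ^ (2 ^ (5 * l)) = (D.v μ) ^ ((2 ^ (5 * l)) ^ 2) := by
    rw [← pow_mul, sq]
  have h2 := D.v_pow hμ 1
  rw [pow_one] at h2
  rw [h1, D.v_pow hμ 2, h2, D.v_eq, D.u_rec 1, D.u_rec 0]
  simp only [zero_add]
  ring

end Dat

theorem cramer {v u vQ uQ vQQ uQQ : K} (h : vQ * u + v * uQ ≠ 0) :
    vQQ + (vQQ * u + v * uQQ) / (vQ * u + v * uQ) * vQ +
      (vQQ * uQ + vQ * uQQ) / (vQ * u + v * uQ) * v = 0 := by
  rw [div_mul_eq_mul_div, div_mul_eq_mul_div, add_assoc, ← add_div]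
  have h1 : vQQ = (vQQ * (vQ * u + v * uQ)) / (vQ * u + v * uQ) := by
    rw [mul_div_assoc, div_self h, mul_one]
  nth_rewrite 1 [h1]
  rw [← add_div]
  have h2 : vQQ * (vQ * u + v * uQ) + ((vQQ * u + v * uQQ) * vQ + (vQQ * uQ + vQ * uQQ) * v) =
      0 := by
    linear_combination add_self_zero (vQQ * vQ * u) + add_self_zero (vQQ * v * uQ) +
      add_self_zero (v * vQ * uQQ)
  rw [h2, zero_div]

/-- The trinomial. -/
theorem exists_trinomial {l : ℕ} (D : Dat K l) (hl : 1 ≤ l) (v u : K) (hv : v ≠ 0)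
    (hu : u = v ^ (2 ^ (5 * l))) (hr : u ^ (2 ^ (5 * l)) = D.t * u + v) :
    ∃ α β : K, α ^ (2 ^ (5 * l)) = α ∧ β ^ (2 ^ (5 * l)) = β ∧
      (v ^ (2 ^ l)) ^ (2 ^ l) + α * v ^ (2 ^ l) + β * v = 0 := by
  have htQ := D.t_Q
  set t := D.t with ht
  set vQ := v ^ (2 ^ l) with hvQ
  set uQ := u ^ (2 ^ l) with huQ
  set vQQ := vQ ^ (2 ^ l) with hvQQ
  set uQQ := uQ ^ (2 ^ l) with huQQ
  have hcomm : ∀ (x : K) (i j : ℕ), (x ^ i) ^ j = (x ^ j) ^ i := fun x i j => by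
    rw [← pow_mul, ← pow_mul, mul_comm]
  -- Frobenius on the four elements
  have f1 : v ^ (2 ^ (5 * l)) = u := hu.symm
  have f2 : u ^ (2 ^ (5 * l)) = t * u + v := hr
  have f3 : vQ ^ (2 ^ (5 * l)) = uQ := by rw [hvQ, hcomm, f1]
  have f4 : uQ ^ (2 ^ (5 * l)) = t * uQ + vQ := by
    rw [huQ, hcomm, f2, add_pow_two, mul_pow, htQ]
  have f5 : vQQ ^ (2 ^ (5 * l)) = uQQ := by rw [hvQQ, hcomm, f3]
  have f6 : uQQ ^ (2 ^ (5 * l)) = t * uQQ + vQQ := by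
    rw [huQQ, hcomm, f4, add_pow_two, mul_pow, htQ]
  have hu0 : u ≠ 0 := by
    rw [hu]
    exact pow_ne_zero _ hv
  have hΔ : vQ * u + v * uQ ≠ 0 := by
    intro h
    -- κ = u / v
    have h1 : (u / v) ^ (2 ^ l) = u / v := by
      rw [div_pow, div_eq_div_iff (pow_ne_zero _ hv) hv]
      have h2 : vQ * u = v * uQ := CharTwo.add_eq_zero.1 h
      rw [← hvQ, ← huQ, mul_comm u vQ, h2, mul_comm]
    have h2 : (u / v) ^ (2 ^ (5 * l)) = u / v := Dat.pow_of_Q h1 5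
    have h3 : (u / v) ^ 2 + t * (u / v) + 1 = 0 := by
      have h4 : (u / v) ^ (2 ^ (5 * l)) = (t * u + v) / u := by
        rw [div_pow, f1, f2]
      rw [h2] at h4
      have h5 : u ^ 2 = v * (t * u + v) := by
        rw [div_eq_div_iff hv hu0] at h4
        linear_combination h4
      have h6 : (u / v) ^ 2 + t * (u / v) + 1 = (u ^ 2 + t * u * v + v ^ 2) / v ^ 2 := by
        field_simp
      rw [h6, h5]
      have h7 := add_self_zero (t * u * v + v ^ 2)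
      have h8 : v * (t * u + v) + t * u * v + v ^ 2 = 0 := by linear_combination h7
      rw [h8, zero_div]
    have h9 : D.τ ^ (2 ^ l) ≠ D.τ := by
      intro h10
      rw [D.τ_Q] at h10
      have h11 := D.t_ne hl
      rw [Dat.t, h10] at h11
      exact h11 (add_self_zero _)
    rcases D.quad h3 with h4 | h4
    · rw [h4] at h1
      exact h9 h1
    · rw [h4, D.τ_inv_Q] at h1
      apply h9
      rw [D.τ_Q]
      exact h1.symm
  refine ⟨(vQQ * u + v * uQQ) / (vQ * u + v * uQ), (vQQ * uQ + vQ * uQQ) / (vQ * u + v * uQ),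
    ?_, ?_, ?_⟩
  · rw [div_pow, add_pow_two, mul_pow, mul_pow, add_pow_two, mul_pow, mul_pow, f1, f2, f3, f4,
      f5, f6]
    have e1 : uQQ * (t * u + v) + u * (t * uQQ + vQQ) = vQQ * u + v * uQQ := by
      linear_combination add_self_zero (t * u * uQQ)
    have e2 : uQ * (t * u + v) + u * (t * uQ + vQ) = vQ * u + v * uQ := by
      linear_combination add_self_zero (t * u * uQ)
    rw [e1, e2]
  · rw [div_pow, add_pow_two, mul_pow, mul_pow, add_pow_two, mul_pow, mul_pow, f1, f2, f3, f4,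
      f5, f6]
    have e1 : uQQ * (t * uQ + vQ) + uQ * (t * uQQ + vQQ) = vQQ * uQ + vQ * uQQ := by
      linear_combination add_self_zero (t * uQ * uQQ)
    have e2 : uQ * (t * u + v) + u * (t * uQ + vQ) = vQ * u + v * uQ := by
      linear_combination add_self_zero (t * u * uQ)
    rw [e1, e2]
  · exact cramer hΔ

end

end Pool.Agent.Helper3.PP
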