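import Pool.Agent.Helper3.PP.Stepanov
import Pool.Agent.Helper3.PP.Primes
import Pool.Agent.Helper3.PP.W

/-!
# Existence of a good element (MP_4ed2e5_nt)
-/

set_option autoImplicit false

namespace Pool.Agent.Helper3.PP

open Polynomial Finset

variable {K : Type*} [Field K] [CharP K 2]

/-- The fixed field has the right cardinality. -/
theorem exists_fixed [IsAlgClosed K] (e : ℕ) (he : 1 ≤ e) :
    ∃ F : Finset K, F.card = 2 ^ e ∧ ∀ x, x ∈ F ↔ x ^ (2 ^ e) = x := by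
  classical
  have h1 : 1 < 2 ^ e := Nat.one_lt_two_pow (by omega)
  have hne : (X ^ (2 ^ e) - X : K[X]) ≠ 0 := FiniteField.X_pow_card_sub_X_ne_zero K h1
  have hdeg : (X ^ (2 ^ e) - X : K[X]).natDegree = 2 ^ e :=
    FiniteField.X_pow_card_sub_X_natDegree_eq K h1
  have hsep : (X ^ (2 ^ e) - X : K[X]).Separable :=
    galois_poly_separable 2 (2 ^ e) (dvd_pow_self 2 (by omega))
  refine ⟨(X ^ (2 ^ e) - X : K[X]).roots.toFinset, ?_, ?_⟩
  · rw [Multiset.toFinset_card_of_nodup (nodup_roots hsep)]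
    have h2 := (IsAlgClosed.splits (X ^ (2 ^ e) - X : K[X])).natDegree_eq_card_roots
    rw [← h2, hdeg]
  · intro x
    rw [Multiset.mem_toFinset, mem_roots hne, IsRoot, eval_sub, eval_pow, eval_X, sub_eq_zero]

/-- Numerical inequalities. -/
theorem numerics (i l m : ℕ) (hi : 16 ≤ i) (hl : l = 2 ^ i) (hm : 2 * m = 5 * l) :
    3 * ((2 ^ l + 1) + 5) < 2 * 2 ^ m ∧
    10 * l * (2 ^ l + 1) * (2 * (2 ^ l + 1) + 7) < 2 ^ m := by
  obtain ⟨j, rfl⟩ : ∃ j, i = j + 1 := ⟨i - 1, by omega⟩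
  obtain ⟨l', hl'⟩ : ∃ l', l' = 2 ^ j := ⟨_, rfl⟩
  have hll : l = 2 * l' := by rw [hl, hl', pow_succ, mul_comm]
  have hmm : m = 2 * l + l' := by omega
  have hj : j + 7 < 2 ^ j := by
    have h1 : 2 ^ j = 2 * 2 ^ (j - 1) := by
      rw [← pow_succ']
      congr 1
      omega
    have h2 : j - 1 < 2 ^ (j - 1) := Nat.lt_two_pow_self
    omega
  have h1 : 120 * l' < 2 ^ l' := by
    calc 120 * l' ≤ 2 ^ 7 * 2 ^ j := by rw [← hl']; omega
      _ = 2 ^ (j + 7) := by rw [← pow_add, add_comm]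
      _ < 2 ^ l' := Nat.pow_lt_pow_right (by norm_num) (hl' ▸ hj)
  have h2 : 2 ^ m = 2 ^ l * 2 ^ l * 2 ^ l' := by
    rw [hmm, ← pow_add, ← pow_add]
    congr 1
    omega
  have hl0 : 16 ≤ l := by
    have : 2 ^ 4 ≤ 2 ^ (j + 1) := Nat.pow_le_pow_right (by norm_num) (by omega)
    rw [hl]
    exact this
  obtain ⟨A, hA⟩ : ∃ A, A = 2 ^ l := ⟨_, rfl⟩
  have hA16 : 65536 ≤ A := by
    have : 2 ^ 16 ≤ 2 ^ l := Nat.pow_le_pow_right (by norm_num) hl0
    rw [hA]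
    exact this
  rw [h2, ← hA]
  have h3 : A + 1 ≤ 2 * A := by omega
  have h4 : 2 * (A + 1) + 7 ≤ 3 * A := by omega
  have h5 : 60 * l < 2 ^ l' := by omega
  have h6 : 10 * l * (A + 1) * (2 * (A + 1) + 7) ≤ 10 * l * (2 * A) * (3 * A) :=
    Nat.mul_le_mul (Nat.mul_le_mul_left _ h3) h4
  have h7 : 10 * l * (2 * A) * (3 * A) = A * A * (60 * l) := by ring
  have h8 : A * A * (60 * l) < A * A * 2 ^ l' :=
    Nat.mul_lt_mul_of_pos_left h5 (by positivity)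
  refine ⟨?_, by omega⟩
  have h9 : A * 65536 * 1 ≤ A * A * 2 ^ l' :=
    Nat.mul_le_mul (Nat.mul_le_mul_left _ hA16) Nat.one_le_two_pow
  omega

theorem exists_good [IsAlgClosed K] (i l : ℕ) (hi : 16 ≤ i) (hl : l = 2 ^ i) (D : Dat K l) :
    ∃ μ : K, μ ^ (2 ^ (5 * l)) = μ ∧ ∀ p ∈ PD (2 ^ (5 * l)) (2 ^ l + 1),
      (D.v μ) ^ (((2 ^ (5 * l)) ^ (2 ^ l + 1) - 1) / p) ≠ 1 := by
  classical
  have hl1 : 1 ≤ l := hl ▸ Nat.one_le_two_pow
  obtain ⟨m, hm⟩ : ∃ m, 2 * m = 5 * l := by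
    refine ⟨5 * 2 ^ (i - 1), ?_⟩
    have : l = 2 * 2 ^ (i - 1) := by
      rw [hl, ← pow_succ']
      congr 1
      omega
    omega
  obtain ⟨hn1, hn2⟩ := numerics i l m hi hl hm
  obtain ⟨F, hFcard, hF⟩ := exists_fixed (K := K) (5 * l) (by omega)
  by_contra hcon
  push Not at hcon
  set q : ℕ := 2 ^ (5 * l) with hq
  set a : ℕ := 2 ^ l + 1 with ha
  set A : ℕ → Finset K := fun p => F.filter (fun μ => (D.v μ) ^ ((q ^ a - 1) / p) = 1) with hA
  have hsub : F ⊆ (PD q a).biUnion A := by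
    intro μ hμ
    obtain ⟨p, hp, hp'⟩ := hcon μ ((hF μ).1 hμ)
    rw [Finset.mem_biUnion]
    exact ⟨p, hp, Finset.mem_filter.2 ⟨hμ, hp'⟩⟩
  have hcard : (F.card : ℝ) ≤ ∑ p ∈ PD q a, ((A p).card : ℝ) := by
    have := (Finset.card_le_card hsub).trans Finset.card_biUnion_le
    exact_mod_cast this
  have hq2 : q = 2 ^ (2 * m) := by rw [hq, hm]
  have hbound : ∀ p ∈ PD q a, ((A p).card : ℝ) ≤ q * (1 / (p : ℝ)) + (2 * a + 7) * 2 ^ m := by
    intro p hp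
    rw [PD, Finset.mem_filter, Nat.mem_primeFactors] at hp
    obtain ⟨⟨hpp, hpd, -⟩, -⟩ := hp
    have h1 := stepanov_pow m a (by have := Nat.one_le_two_pow (n := l); omega) hn1 D.θ D.v₀
      (by
        rw [← hq2]
        exact D.θ_inj hl1) p hpp.two_le (by rw [← hq2]; exact hpd) (A p)
      (by
        intro x hx
        rw [← hq2]
        exact (hF x).1 (Finset.mem_filter.1 hx).1)
      (by
        intro x hx
        rw [← hq2]
        exact (Finset.mem_filter.1 hx).2)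
    rw [← hq2] at h1
    have hp0 : (0 : ℝ) < p := by exact_mod_cast hpp.pos
    have h2 : (p : ℝ) * (A p).card ≤ q + (2 * a + 7) * 2 ^ m * p := by exact_mod_cast h1
    have h3 : ((A p).card : ℝ) = (p : ℝ) * (A p).card * (1 / p) := by field_simp
    rw [h3]
    have h4 : (p : ℝ) * (A p).card * (1 / p) ≤ (q + (2 * a + 7) * 2 ^ m * p) * (1 / p) :=
      mul_le_mul_of_nonneg_right h2 (by positivity)
    have h5 : ((q : ℝ) + (2 * a + 7) * 2 ^ m * p) * (1 / p) =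
        q * (1 / (p : ℝ)) + (2 * a + 7) * 2 ^ m := by field_simp
    rw [← h5]
    exact h4
  have h1 := hcard.trans (Finset.sum_le_sum hbound)
  rw [Finset.sum_add_distrib, ← Finset.mul_sum, Finset.sum_const, nsmul_eq_mul] at h1
  have h2 := primes_sum i l a q hi hl rfl rfl
  have h3 := primes_card l a q hl1 (Nat.succ_ne_zero _) rfl
  have h4 : (q : ℝ) * ∑ p ∈ PD q a, 1 / (p : ℝ) ≤ q * (1 / 2) :=
    mul_le_mul_of_nonneg_left h2 (Nat.cast_nonneg _)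
  have h5 : ((PD q a).card : ℝ) * ((2 * a + 7) * 2 ^ m) ≤ (5 * l * a) * ((2 * a + 7) * 2 ^ m) := by
    refine mul_le_mul_of_nonneg_right ?_ (by positivity)
    exact_mod_cast h3
  have h6 : (10 * l * a * (2 * a + 7) : ℝ) < 2 ^ m := by exact_mod_cast hn2
  have h7 : (q : ℝ) = 2 ^ m * 2 ^ m := by
    rw [hq2, ← pow_add, two_mul]
    push_cast
    ring
  have h8 : (10 * l * a * (2 * a + 7) : ℝ) * 2 ^ m < 2 ^ m * 2 ^ m :=
    mul_lt_mul_of_pos_right h6 (by positivity)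
  have h9 : (F.card : ℝ) = q := by rw [hFcard]
  rw [h9] at h1
  nlinarith

/-- `(q ^ a - 1) / (q - 1)`. -/
def gs (q a : ℕ) : ℕ := ∑ j ∈ range a, q ^ j

theorem gs_mul (q a : ℕ) (hq : 1 ≤ q) : gs q a * (q - 1) = q ^ a - 1 := by
  have h1 : (gs q a : ℤ) * (q - 1) = q ^ a - 1 := by
    rw [gs]
    push_cast
    exact geom_sum_mul (q : ℤ) a
  have h2 : 1 ≤ q ^ a := Nat.one_le_pow _ _ hq
  zify [hq, h2]
  exact h1

theorem pow_gs (q a : ℕ) {c : K} (hc : c ^ q = c) : c ^ gs q a = c ^ a := by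
  have h : ∀ j, c ^ (q ^ j) = c := by
    intro j
    induction j with
    | zero => simp
    | succ j ih => rw [pow_succ, pow_mul, ih, hc]
  rw [gs, ← Finset.prod_pow_eq_pow_sum, Finset.prod_congr rfl fun j _ => h j, Finset.prod_const,
    Finset.card_range]

theorem coprime_aux (l : ℕ) (hl : 1 ≤ l) : Nat.Coprime (2 ^ l + 1) (2 ^ (5 * l) - 1) := by
  have h1 : 2 ^ l + 1 ∣ 2 ^ (5 * l) + 1 := Dat.dvd_q
  have h2 : 1 ≤ 2 ^ (5 * l) := Nat.one_le_two_pow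
  set g := Nat.gcd (2 ^ l + 1) (2 ^ (5 * l) - 1) with hg
  have h3 : g ∣ 2 ^ (5 * l) + 1 := (Nat.gcd_dvd_left _ _).trans h1
  have h4 : g ∣ 2 ^ (5 * l) - 1 := Nat.gcd_dvd_right _ _
  have h5 : g ∣ 2 := by
    have h6 := Nat.dvd_sub h3 h4
    have h7 : 2 ^ (5 * l) + 1 - (2 ^ (5 * l) - 1) = 2 := by omega
    rwa [h7] at h6
  have h8 : Nat.Coprime (2 ^ l + 1) 2 := by
    rw [Nat.coprime_two_right]
    obtain ⟨l', rfl⟩ : ∃ l', l = l' + 1 := ⟨l - 1, by omega⟩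
    exact ⟨2 ^ l', by ring⟩
  have h9 : g ∣ Nat.gcd (2 ^ l + 1) 2 := Nat.dvd_gcd (Nat.gcd_dvd_left _ _) h5
  rw [Nat.Coprime] at h8
  rw [h8] at h9
  exact Nat.dvd_one.1 h9

theorem exists_y [IsAlgClosed K] (i l : ℕ) (hi : 16 ≤ i) (hl : l = 2 ^ i) :
    ∃ y α β : K, orderOf y = (2 ^ (5 * l)) ^ (2 ^ l + 1) - 1 ∧ α ^ (2 ^ (5 * l)) = α ∧
      β ^ (2 ^ (5 * l)) = β ∧ y ^ (2 ^ l + 1) + α * y + β = 0 := by
  have hl1 : 1 ≤ l := hl ▸ Nat.one_le_two_pow
  obtain ⟨D⟩ := exists_dat (K := K) l hl1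
  obtain ⟨μ, hμ, hgood⟩ := exists_good i l hi hl D
  have hv0 := D.v_ne hl1 hμ
  have hvlast := D.v_last hl1 hμ
  obtain ⟨α, β, hα, hβ, hrel⟩ := exists_trinomial D hl1 (D.v μ) ((D.v μ) ^ (2 ^ (5 * l))) hv0 rfl
    (D.v_rel hμ)
  set v := D.v μ with hv
  have hcop := coprime_aux l hl1
  obtain ⟨q, hq⟩ : ∃ q, q = 2 ^ (5 * l) := ⟨_, rfl⟩
  obtain ⟨Q, hQ⟩ : ∃ Q, Q = 2 ^ l := ⟨_, rfl⟩
  rw [← hq, ← hQ] at hcop hgood hvlast
  rw [← hq] at hα hβ
  rw [← hQ] at hrel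
  have hQ2 : 2 ≤ Q := by
    rw [hQ]
    calc 2 = 2 ^ 1 := rfl
      _ ≤ 2 ^ l := Nat.pow_le_pow_right (by norm_num) hl1
  have hqQ : q = Q ^ 5 := by rw [hq, hQ, ← pow_mul, mul_comm]
  have hQq : Q - 1 ∣ q - 1 := by
    rw [hqQ]
    have := Nat.sub_dvd_pow_sub_pow Q 1 5
    rwa [one_pow] at this
  have hq2 : 3 ≤ q := by
    rw [hqQ]
    calc 3 ≤ 2 ^ 5 := by norm_num
      _ ≤ Q ^ 5 := Nat.pow_le_pow_left hQ2 5
  rw [← hq, ← hQ]
  set a := Q + 1 with ha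
  set T := gs q a with hT
  have hTq : T * (q - 1) = q ^ a - 1 := gs_mul q a (by omega)
  have hqa : q ≤ q ^ a := by
    calc q = q ^ 1 := (pow_one q).symm
      _ ≤ q ^ a := Nat.pow_le_pow_right (by omega) (by omega)
  have hvN : v ^ (q ^ a - 1) = 1 := by
    have h1 : v ^ (q ^ a - 1) * v = 1 * v := by
      rw [← pow_succ, one_mul]
      have : q ^ a - 1 + 1 = q ^ a := by omega
      rw [this, hvlast]
    exact mul_right_cancel₀ hv0 h1
  -- the element g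
  have hqK : ((q - 1 : ℕ) : K) ≠ 0 := by
    have h0 : ((2 : ℕ) : K) = 0 := CharP.cast_eq_zero K 2
    have h1 : ((q : ℕ) : K) = 0 := by
      rw [hq]
      push_cast at h0 ⊢
      rw [h0, zero_pow (by omega)]
    rw [Nat.cast_sub (by omega), h1]
    simp
  have : NeZero ((q - 1 : ℕ) : K) := ⟨hqK⟩
  obtain ⟨g, hg⟩ := HasEnoughRootsOfUnity.exists_primitiveRoot K (q - 1)
  have hg0 : g ≠ 0 := hg.ne_zero (by omega)
  set y₀ := v ^ (Q - 1) with hy₀
  have hy₀0 : y₀ ≠ 0 := pow_ne_zero _ hv0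
  set w := g * (y₀ ^ T)⁻¹ with hw
  have hw1 : w ^ (q - 1) = 1 := by
    rw [hw, mul_pow, hg.pow_eq_one, one_mul, inv_pow, ← pow_mul, hTq, hy₀, ← pow_mul,
      mul_comm (Q - 1), pow_mul, hvN, one_pow, inv_one]
  obtain ⟨k, hk⟩ := Nat.exists_mul_mod_eq_one_of_coprime hcop (by omega : 1 < q - 1)
  have hwk : w ^ (a * k) = w := by
    rw [← Nat.div_add_mod (a * k) (q - 1), pow_add, pow_mul, hw1, one_pow, one_mul, hk.2, pow_one]
  set c := w ^ k with hc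
  have hc1 : c ^ (q - 1) = 1 := by
    rw [hc, ← pow_mul, mul_comm, pow_mul, hw1, one_pow]
  have hcq : c ^ q = c := by
    have : q = (q - 1) + 1 := by omega
    rw [this, pow_succ, hc1, one_mul]
  have hca : c ^ a = w := by
    rw [hc, ← pow_mul, mul_comm k a, hwk]
  have hc0 : c ≠ 0 := by
    intro h
    rw [h, zero_pow (by omega)] at hc1
    exact zero_ne_one hc1
  have hnorm : (c * y₀) ^ T = g := by
    rw [mul_pow, hT, pow_gs q a hcq, hca, hw, ← hT]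
    rw [mul_assoc, inv_mul_cancel₀ (pow_ne_zero _ hy₀0), mul_one]
  refine ⟨c * y₀, α * c ^ Q, β * c ^ (Q + 1), ?_, ?_, ?_, ?_⟩
  · refine orderOf_eq_of_pow_and_pow_div_prime (by omega) ?_ ?_
    · rw [← hTq, pow_mul, hnorm, hg.pow_eq_one]
    · intro p hp hpd
      by_cases hpq : p ∣ q - 1
      · have h1 : (q ^ a - 1) / p = T * ((q - 1) / p) := by
          rw [← hTq, Nat.mul_div_assoc T hpq]
        rw [h1, pow_mul, hnorm]
        refine hg.pow_ne_one_of_pos_of_lt ?_ ?_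
        · have := Nat.div_pos (Nat.le_of_dvd (by omega) hpq) hp.pos
          omega
        · exact Nat.div_lt_self (by omega) hp.one_lt
      · have hpT : p ∣ T := by
          rw [← hTq] at hpd
          exact ((Nat.Prime.dvd_mul hp).1 hpd).resolve_right hpq
        have h1 : (q ^ a - 1) / p = (q - 1) * (T / p) := by
          rw [← hTq, mul_comm T, Nat.mul_div_assoc _ hpT]
        have h2 : c ^ ((q ^ a - 1) / p) = 1 := by
          rw [h1, pow_mul, hc1, one_pow]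
        have hpPD : p ∈ PD q a := by
          rw [PD, Finset.mem_filter, Nat.mem_primeFactors]
          exact ⟨⟨hp, hpd, by omega⟩, hpq⟩
        have h3 := hgood p hpPD
        have h4 : (v ^ ((q ^ a - 1) / p)) ^ p = 1 := by
          rw [← pow_mul, Nat.div_mul_cancel hpd, hvN]
        have : Fact p.Prime := ⟨hp⟩
        have h5 := orderOf_eq_prime h4 h3
        intro h6
        rw [mul_pow, h2, one_mul, hy₀, ← pow_mul, mul_comm (Q - 1), pow_mul] at h6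
        have h7 := orderOf_dvd_of_pow_eq_one h6
        rw [h5] at h7
        exact hpq (h7.trans hQq)
  · rw [mul_pow, hα, ← pow_mul, mul_comm Q q, pow_mul, hcq]
  · rw [mul_pow, hβ, ← pow_mul, mul_comm (Q + 1) q, pow_mul, hcq]
  · have h1 : v * y₀ = v ^ Q := by
      rw [hy₀, ← pow_succ']
      congr 1
      omega
    have h2 : v * y₀ ^ (Q + 1) = (v ^ Q) ^ Q := by
      rw [hy₀, ← pow_mul, ← pow_mul, ← pow_succ']
      congr 1
      obtain ⟨Q', rfl⟩ : ∃ Q', Q = Q' + 1 := ⟨Q - 1, by omega⟩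
      simp only [Nat.add_sub_cancel]
      ring
    have h3 : v * (y₀ ^ (Q + 1) + α * y₀ + β) = 0 := by
      rw [mul_add, mul_add, h2]
      rw [← h1] at hrel ⊢
      linear_combination hrel
    have h4 := (mul_eq_zero.1 h3).resolve_left hv0
    rw [mul_pow]
    have h5 : c ^ (Q + 1) * (y₀ ^ (Q + 1) + α * y₀ + β) = 0 := by rw [h4, mul_zero]
    linear_combination h5

end Pool.Agent.Helper3.PP
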