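import Mathlib

/-!
# Hasse derivatives of products, for Stepanov's method (MP_4ed2e5_nt)
-/

set_option autoImplicit false

namespace Pool.Agent.Helper3.PP

open Polynomial Finset

variable {K : Type*} [Field K]

theorem hasse_linear (b : K) (g : K[X]) (k : ℕ) :
    hasseDeriv (k + 1) ((X + C b) * g) =
      (X + C b) * hasseDeriv (k + 1) g + hasseDeriv k g := by
  rw [hasseDeriv_mul, Finset.Nat.antidiagonal_succ, Finset.sum_cons, Finset.sum_map]
  rw [hasseDeriv_zero']
  congr 1
  cases k with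
  | zero =>
    simp
  | succ k =>
    rw [Finset.Nat.antidiagonal_succ, Finset.sum_cons, Finset.sum_map]
    have h1 : hasseDeriv 1 (X + C b) = (1 : K[X]) := by
      rw [hasseDeriv_one']; simp
    have h2 : ∀ x ∈ antidiagonal k, hasseDeriv (x.1 + 1 + 1) (X + C b) *
        hasseDeriv x.2 g = 0 := by
      intro x _
      have hX : hasseDeriv (x.1 + 1 + 1) (X : K[X]) = 0 := hasseDeriv_X _ (by omega)
      have hC : hasseDeriv (x.1 + 1 + 1) (C b : K[X]) = 0 := hasseDeriv_C _ _ (by omega)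
      rw [map_add, hX, hC]
      simp
    simp only [Function.Embedding.prodMap, Function.Embedding.coeFn_mk, Prod.map,
      Nat.succ_eq_add_one, Function.Embedding.refl_apply, zero_add]
    rw [h1, one_mul]
    rw [Finset.sum_eq_zero, add_zero]
    intro x hx
    exact h2 x hx

theorem hasse_pow_dvd (b : K) (m : ℕ) : ∀ (k : ℕ) (f : K[X]), (X + C b) ^ m ∣ f →
    (X + C b) ^ (m - k) ∣ hasseDeriv k f := by
  induction m with
  | zero => intro k f _; simp
  | succ m ih =>
    intro k f hf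
    obtain ⟨g, rfl⟩ := hf
    rcases Nat.eq_zero_or_pos k with rfl | hk
    · rw [hasseDeriv_zero']; exact Dvd.intro _ rfl
    obtain ⟨k, rfl⟩ : ∃ k', k = k' + 1 := ⟨k - 1, by omega⟩
    have e : (X + C b) ^ (m + 1) * g = (X + C b) * ((X + C b) ^ m * g) := by ring
    rw [e, hasse_linear]
    apply dvd_add
    · have h1 := ih (k + 1) ((X + C b) ^ m * g) (Dvd.intro _ rfl)
      refine dvd_trans ?_ (mul_dvd_mul_left (X + C b) h1)
      rw [← pow_succ']
      exact pow_dvd_pow _ (by omega)
    · have h1 := ih k ((X + C b) ^ m * g) (Dvd.intro _ rfl)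
      exact dvd_trans (pow_dvd_pow _ (by omega)) h1

/-- The product of powers of distinct linear factors. -/
noncomputable def PL (a : ℕ) (t : ℕ → K) (m : ℕ → ℕ) : K[X] :=
  ∏ j ∈ range a, (X + C (t j)) ^ m j

theorem PL_monic (a : ℕ) (t : ℕ → K) (m : ℕ → ℕ) : (PL a t m).Monic :=
  monic_prod_of_monic _ _ fun j _ => (monic_X_add_C (t j)).pow _

theorem PL_natDegree (a : ℕ) (t : ℕ → K) (m : ℕ → ℕ) :
    (PL a t m).natDegree = ∑ j ∈ range a, m j := by
  rw [PL, natDegree_prod_of_monic _ _ fun j _ => (monic_X_add_C (t j)).pow _]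
  refine Finset.sum_congr rfl fun j _ => ?_
  rw [(monic_X_add_C (t j)).natDegree_pow, natDegree_X_add_C, mul_one]

theorem PL_mul (a : ℕ) (t : ℕ → K) (m m' : ℕ → ℕ) :
    PL a t m * PL a t m' = PL a t (fun j => m j + m' j) := by
  rw [PL, PL, PL, ← Finset.prod_mul_distrib]
  exact Finset.prod_congr rfl fun j _ => (pow_add _ _ _).symm

theorem PL_pow (a : ℕ) (t : ℕ → K) (m : ℕ → ℕ) (n : ℕ) :
    PL a t m ^ n = PL a t (fun j => n * m j) := by
  rw [PL, PL, ← Finset.prod_pow]
  exact Finset.prod_congr rfl fun j _ => by rw [← pow_mul, mul_comm]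

theorem hasse_PL_dvd {a : ℕ} {t : ℕ → K} (ht : ∀ i < a, ∀ j < a, t i = t j → i = j)
    (m : ℕ → ℕ) (k : ℕ) (f : K[X]) (hf : PL a t m ∣ f) :
    PL a t (fun j => m j - k) ∣ hasseDeriv k f := by
  rw [PL]
  refine Finset.prod_dvd_of_coprime ?_ ?_
  · intro i hi j hj hij
    have hi' := Finset.mem_range.1 (Finset.mem_coe.1 hi)
    have hj' := Finset.mem_range.1 (Finset.mem_coe.1 hj)
    have hne : -t i ≠ -t j := fun h => hij (ht i hi' j hj' (neg_injective h))
    have hc := isCoprime_X_sub_C_of_isUnit_sub (sub_ne_zero.2 hne).isUnit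
    have hc' : IsCoprime (X + C (t i)) (X + C (t j)) := by
      simpa [sub_neg_eq_add] using hc
    exact hc'.pow
  · intro j hj
    exact hasse_pow_dvd (t j) (m j) k f
      (dvd_trans (Finset.dvd_prod_of_mem (fun j => (X + C (t j)) ^ m j) hj) hf)

/-- The cofactors of the Hasse derivatives. -/
theorem exists_cof {a : ℕ} {t : ℕ → K} (ht : ∀ i < a, ∀ j < a, t i = t j → i = j)
    (m : ℕ → ℕ) (M : ℕ) (hM : ∀ j, M ≤ m j) :
    ∃ W : ℕ → K[X], ∀ b ≤ M, hasseDeriv b (PL a t m) = PL a t (fun j => m j - b) * W b ∧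
      (W b).natDegree ≤ b * (a - 1) := by
  have h : ∀ b, ∃ w : K[X], b ≤ M → hasseDeriv b (PL a t m) = PL a t (fun j => m j - b) * w ∧
      w.natDegree ≤ b * (a - 1) := by
    intro b
    obtain ⟨w, hw⟩ := hasse_PL_dvd ht m b (PL a t m) dvd_rfl
    refine ⟨w, fun hb => ⟨hw, ?_⟩⟩
    by_cases hw0 : w = 0
    · rw [hw0]; simp
    have h1 := natDegree_hasseDeriv_le (PL a t m) b
    rw [hw, (PL_monic a t _).natDegree_mul' hw0, PL_natDegree, PL_natDegree] at h1
    have h2 : ∑ j ∈ range a, (m j - b) + a * b = ∑ j ∈ range a, m j := by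
      rw [← Finset.card_range a, ← smul_eq_mul (Finset.card (range a)), ← Finset.sum_const,
        Finset.card_range, ← Finset.sum_add_distrib]
      refine Finset.sum_congr rfl fun j _ => ?_
      have := hM j
      omega
    have h3 : b * (a - 1) = a * b - b := by
      rw [Nat.mul_sub_one, mul_comm]
    omega
  choose W hW using h
  exact ⟨W, hW⟩

/-- In characteristic two, Hasse derivatives of low order see a `q`-th power as a constant. -/
theorem hasse_mul_pow [CharP K 2] (e k : ℕ) (hk : k < 2 ^ e) (f : K[X]) (j : ℕ) :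
    hasseDeriv k (f * X ^ (j * 2 ^ e)) = hasseDeriv k f * X ^ (j * 2 ^ e) := by
  have key : ∀ f : K[X], hasseDeriv k (f * X ^ (2 ^ e)) = hasseDeriv k f * X ^ (2 ^ e) := by
    intro f
    rw [hasseDeriv_mul, Finset.sum_eq_single (k, 0)]
    · rw [hasseDeriv_zero']
    · intro x hx hne
      rw [Finset.HasAntidiagonal.mem_antidiagonal] at hx
      have h0 : x.2 ≠ 0 := by
        intro h0
        apply hne
        ext
        · simp; omega
        · exact h0
      have h2 : hasseDeriv x.2 ((X : K[X]) ^ (2 ^ e)) = 0 := by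
        rw [X_pow_eq_monomial, hasseDeriv_monomial]
        have hd : 2 ∣ (2 ^ e).choose x.2 :=
          Nat.Prime.dvd_choose_pow Nat.prime_two h0 (by omega)
        have : (((2 ^ e).choose x.2 : ℕ) : K) = 0 := (CharP.cast_eq_zero_iff K 2 _).2 hd
        rw [this, zero_mul, monomial_zero_right]
      rw [h2, mul_zero]
    · intro h
      exact absurd (Finset.HasAntidiagonal.mem_antidiagonal.2 (add_zero k)) h
  induction j generalizing f with
  | zero => simp
  | succ j ih =>
    have e1 : (X : K[X]) ^ ((j + 1) * 2 ^ e) = X ^ (2 ^ e) * X ^ (j * 2 ^ e) := by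
      rw [← pow_add]; congr 1; ring
    rw [e1, ← mul_assoc, ih, key]
    ring

/-- Vanishing of the Hasse derivatives gives high multiplicity. -/
theorem pow_dvd_of_hasse (x : K) (M : ℕ) (f : K[X]) (h : ∀ k < M, (hasseDeriv k f).eval x = 0) :
    (X - C x) ^ M ∣ f := by
  rw [X_sub_C_pow_dvd_iff, X_pow_dvd_iff]
  intro k hk
  have := taylor_coeff x f k
  rw [taylor_apply] at this
  rw [this]
  exact h k hk

theorem card_mul_le (A : Finset K) (M : ℕ) (f : K[X]) (hf : f ≠ 0)
    (h : ∀ x ∈ A, (X - C x) ^ M ∣ f) : M * A.card ≤ f.natDegree := by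
  have hd : (∏ x ∈ A, (X - C x) ^ M) ∣ f := by
    refine Finset.prod_dvd_of_coprime ?_ h
    intro x _ y _ hxy
    exact (isCoprime_X_sub_C_of_isUnit_sub (sub_ne_zero.2 hxy).isUnit).pow
  have h1 := natDegree_le_of_dvd hd hf
  rw [natDegree_prod_of_monic _ _ fun x _ => (monic_X_sub_C x).pow _] at h1
  have h2 : ∀ x ∈ A, ((X - C x) ^ M : K[X]).natDegree = M := by
    intro x _
    rw [(monic_X_sub_C x).natDegree_pow, natDegree_X_sub_C, mul_one]
  rw [Finset.sum_congr rfl h2, Finset.sum_const, smul_eq_mul, mul_comm] at h1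
  exact h1

end Pool.Agent.Helper3.PP
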