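import Pool.Agent.Helper3.PP.Hasse

/-!
# Linear independence for Stepanov's method (MP_4ed2e5_nt)
-/

set_option autoImplicit false

namespace Pool.Agent.Helper3.PP

open Polynomial Finset

variable {K : Type*} [Field K]

/-- All nonzero coefficients are at places with residue `< R` modulo `q`. -/
def LowRes (q R : ℕ) (f : K[X]) : Prop := ∀ n, R ≤ n % q → f.coeff n = 0

theorem LowRes.add {q R : ℕ} {f g : K[X]} (hf : LowRes q R f) (hg : LowRes q R g) :
    LowRes q R (f + g) := by
  intro n hn
  rw [coeff_add, hf n hn, hg n hn, add_zero]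

theorem LowRes.zero (q R : ℕ) : LowRes q R (0 : K[X]) := fun n _ => coeff_zero n

theorem LowRes.sum {ι : Type*} (s : Finset ι) {q R : ℕ} (f : ι → K[X])
    (hf : ∀ i ∈ s, LowRes q R (f i)) : LowRes q R (∑ i ∈ s, f i) := by
  intro n hn
  rw [finsetSum_coeff]
  exact Finset.sum_eq_zero fun i hi => hf i hi n hn

theorem LowRes.mul_C {q R : ℕ} {f : K[X]} (hf : LowRes q R f) (c : K) :
    LowRes q R (f * C c) := by
  intro n hn
  rw [coeff_mul_C, hf n hn, zero_mul]

theorem LowRes.mul_Xq {q R : ℕ} {f : K[X]} (hf : LowRes q R f) :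
    LowRes q R (f * X ^ q) := by
  intro n hn
  rw [coeff_mul_X_pow']
  split_ifs with h
  · apply hf
    have : n = (n - q) + q := by omega
    rw [this, Nat.add_mod_right] at hn
    exact hn
  · rfl

theorem LowRes.mul_pow {q R : ℕ} (c : K) (j : ℕ) : ∀ {f : K[X]}, LowRes q R f →
    LowRes q R (f * (X ^ q + C c) ^ j) := by
  induction j with
  | zero => intro f hf; simpa using hf
  | succ j ih =>
    intro f hf
    have e : f * (X ^ q + C c) ^ (j + 1) =
        f * X ^ q * (X ^ q + C c) ^ j + f * C c * (X ^ q + C c) ^ j := by ring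
    rw [e]
    exact (ih hf.mul_Xq).add (ih (hf.mul_C c))

theorem LowRes.of_natDegree {q R : ℕ} {f : K[X]} (h : f.natDegree < R) : LowRes q R f := by
  intro n hn
  apply coeff_eq_zero_of_natDegree_lt
  exact h.trans_le (hn.trans (Nat.mod_le _ _))

/-- The Taylor expansion of `∑ r_j X^(j q)` at a point has low residues. -/
theorem lowRes_taylor [CharP K 2] (e R J : ℕ) (b : K) (r : Fin J → K[X])
    (hr : ∀ j, (r j).natDegree < R) :
    LowRes (2 ^ e) R (taylor b (∑ j : Fin J, r j * X ^ ((j : ℕ) * 2 ^ e))) := by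
  rw [map_sum]
  refine LowRes.sum _ _ fun j _ => ?_
  have h1 : taylor b (r j * X ^ ((j : ℕ) * 2 ^ e)) =
      taylor b (r j) * (X ^ (2 ^ e) + C (b ^ (2 ^ e))) ^ (j : ℕ) := by
    rw [taylor_mul, taylor_apply b (X ^ _), X_pow_comp, mul_comm (j : ℕ), pow_mul]
    congr 2
    have : CharP K[X] 2 := inferInstance
    rw [add_pow_char_pow, C_pow]
  rw [h1]
  apply LowRes.mul_pow
  apply LowRes.of_natDegree
  rw [natDegree_taylor]
  exact hr j

/-- Uniqueness of the expansion `∑ r_j X^(j q)`. -/
theorem eq_zero_of_sum (q R J : ℕ) (hRq : R ≤ q) (r : Fin J → K[X])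
    (hr : ∀ j, (r j).natDegree < R)
    (h : ∑ j : Fin J, r j * X ^ ((j : ℕ) * q) = 0) (j : Fin J) : r j = 0 := by
  ext e
  rw [coeff_zero]
  by_cases he : e < R
  · have h1 := congrArg (fun f => coeff f ((j : ℕ) * q + e)) h
    simp only [finsetSum_coeff, coeff_zero] at h1
    rw [Finset.sum_eq_single j] at h1
    · rwa [coeff_mul_X_pow', if_pos (by omega), Nat.add_sub_cancel_left] at h1
    · intro j' _ hj
      rw [coeff_mul_X_pow']
      split_ifs with hle
      · apply coeff_eq_zero_of_natDegree_lt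
        apply (hr j').trans_le
        have hne : (j' : ℕ) ≠ (j : ℕ) := fun h => hj (Fin.ext h)
        have hlt : (j' : ℕ) < (j : ℕ) := by
          by_contra hcon
          have h3 : (j : ℕ) + 1 ≤ (j' : ℕ) := by omega
          have h4 : ((j : ℕ) + 1) * q ≤ (j' : ℕ) * q := Nat.mul_le_mul_right q h3
          have h5 : ((j : ℕ) + 1) * q = (j : ℕ) * q + q := by ring
          omega
        have h3 : ((j' : ℕ) + 1) * q ≤ (j : ℕ) * q := Nat.mul_le_mul_right q hlt
        have h5 : ((j' : ℕ) + 1) * q = (j' : ℕ) * q + q := by ring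
        omega
      · rfl
    · intro hcon
      exact absurd (Finset.mem_univ _) hcon
  · apply coeff_eq_zero_of_natDegree_lt
    exact (hr j).trans_le (by omega)

/-- Polynomials `ρ_i g_i` where `ρ_i` has low residues at a point and `g_i` vanishes there to
order `n_i`, the `n_i` being separated modulo `q`: their sum vanishes only if all `ρ_i` do. -/
theorem sum_eq_zero_imp (q R I : ℕ) (ρ u : Fin I → K[X]) (n : Fin I → ℕ)
    (hρ : ∀ i, LowRes q R (ρ i)) (hu : ∀ i, (u i).coeff 0 ≠ 0)
    (hsep : ∀ i i', i < i' → n i + R ≤ n i') (hwrap : ∀ i, n i + R ≤ q)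
    (h : ∑ i, ρ i * (X ^ n i * u i) = 0) : ∀ i, ρ i = 0 := by
  classical
  by_contra hcon
  push Not at hcon
  obtain ⟨i₀, hi₀⟩ := hcon
  -- the nonzero terms
  let S : Finset (Fin I) := univ.filter fun i => ρ i ≠ 0
  have hSne : S.Nonempty := ⟨i₀, by simp [S, hi₀]⟩
  obtain ⟨m, hmS, hmin⟩ := Finset.exists_min_image S
    (fun i => (ρ i).natTrailingDegree + n i) hSne
  have hm0 : ρ m ≠ 0 := (Finset.mem_filter.1 hmS).2
  -- residues
  have hres : ∀ i, ρ i ≠ 0 → (ρ i).natTrailingDegree % q < R := by
    intro i hi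
    by_contra hc
    have := hρ i _ (not_lt.1 hc)
    exact (trailingCoeff_eq_zero.not.2 hi) this
  have hmod : ∀ i, ρ i ≠ 0 → ((ρ i).natTrailingDegree + n i) % q =
      (ρ i).natTrailingDegree % q + n i := by
    intro i hi
    have h1 := hres i hi
    have h2 := hwrap i
    rw [Nat.add_mod, Nat.mod_eq_of_lt (a := n i) (by omega)]
    exact Nat.mod_eq_of_lt (by omega)
  have hne : ∀ i, ρ i ≠ 0 → i ≠ m →
      (ρ i).natTrailingDegree + n i ≠ (ρ m).natTrailingDegree + n m := by
    intro i hi him heq
    have h1 := hmod i hi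
    have h2 := hmod m hm0
    have h3 := hres i hi
    have h4 := hres m hm0
    rw [heq, h2] at h1
    rcases lt_or_gt_of_ne him with h5 | h5
    · have := hsep _ _ h5; omega
    · have := hsep _ _ h5; omega
  have hco := congrArg (fun f => coeff f ((ρ m).natTrailingDegree + n m)) h
  simp only [finsetSum_coeff, coeff_zero] at hco
  rw [Finset.sum_eq_single m] at hco
  · have e1 : ρ m * (X ^ n m * u m) = (ρ m * u m) * X ^ n m := by ring
    rw [e1, coeff_mul_X_pow] at hco
    have e2 : (ρ m * u m).coeff (ρ m).natTrailingDegree =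
        (ρ m).trailingCoeff * (u m).coeff 0 := by
      have := coeff_mul_natTrailingDegree_add_natTrailingDegree (p := ρ m) (q := u m)
      have hz : (u m).natTrailingDegree = 0 := by
        apply natTrailingDegree_eq_zero.2
        exact Or.inr (hu m)
      rw [hz, add_zero] at this
      rw [this, trailingCoeff, trailingCoeff, hz]
    rw [e2] at hco
    rcases mul_eq_zero.1 hco with h1 | h1
    · exact (trailingCoeff_eq_zero.not.2 hm0) h1
    · exact hu m h1
  · intro i _ him
    by_cases hi : ρ i = 0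
    · rw [hi, zero_mul, coeff_zero]
    · have e1 : ρ i * (X ^ n i * u i) = X ^ ((ρ i).natTrailingDegree + n i) *
          (ρ i /ₘ X ^ (ρ i).natTrailingDegree * u i) := by
        have hd : X ^ (ρ i).natTrailingDegree ∣ ρ i := X_pow_dvd_iff.2
          (fun d hd => coeff_eq_zero_of_lt_natTrailingDegree hd)
        obtain ⟨w, hw⟩ := hd
        have : ρ i /ₘ X ^ (ρ i).natTrailingDegree = w := by
          conv_lhs => rw [hw]
          rw [← hw]
          have hmonic : (X ^ (ρ i).natTrailingDegree : K[X]).Monic := monic_X_pow _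
          have := mul_divByMonic_cancel_left w hmonic
          rw [← hw] at this
          exact this
        rw [this, pow_add]
        conv_lhs => rw [hw]
        ring
      rw [e1, coeff_X_pow_mul', if_neg]
      have h1 := hmin i (Finset.mem_filter.2 ⟨Finset.mem_univ _, hi⟩)
      have h2 := hne i hi him
      omega
  · intro hc
    exact absurd (Finset.mem_univ _) hc

end Pool.Agent.Helper3.PP
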