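import Mathlib

/-!
# From elements to polynomials (MP_4ed2e5_nt)
-/

set_option autoImplicit false

namespace Pool.Agent.Helper3.PP

open Polynomial Finset

section
variable {K : Type*} [Field K]

theorem coeff_prod_ne (a : ℕ) (A B : ℕ → K) (r : ℕ) : ∀ n,
    (∏ j ∈ range r, (X ^ a + (C (A j) * X + C (B j)))).coeff n ≠ 0 →
    ∃ i j, i + j ≤ r ∧ n = a * i + j := by
  induction r with
  | zero =>
    intro n hn
    rw [Finset.prod_range_zero, coeff_one] at hn
    have : n = 0 := by
      by_contra h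
      rw [if_neg h] at hn
      exact hn rfl
    exact ⟨0, 0, le_rfl, by omega⟩
  | succ r ih =>
    intro n hn
    rw [Finset.prod_range_succ] at hn
    set G := ∏ j ∈ range r, (X ^ a + (C (A j) * X + C (B j))) with hG
    have h1 : G * (X ^ a + (C (A r) * X + C (B r))) =
        G * X ^ a + (C (A r) * (G * X) + C (B r) * G) := by ring
    rw [h1, coeff_add, coeff_add, coeff_C_mul, coeff_C_mul, coeff_mul_X_pow'] at hn
    by_cases h2 : (if a ≤ n then G.coeff (n - a) else 0) = 0
    · rw [h2, zero_add] at hn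
      by_cases h3 : (G * X).coeff n = 0
      · rw [h3, mul_zero, zero_add] at hn
        obtain ⟨i, j, hij, hn'⟩ := ih n (right_ne_zero_of_mul hn)
        exact ⟨i, j, by omega, hn'⟩
      · rcases Nat.eq_zero_or_pos n with h0 | h0
        · rw [h0, coeff_mul_X_zero] at h3
          exact absurd rfl h3
        · obtain ⟨n', rfl⟩ : ∃ n', n = n' + 1 := ⟨n - 1, by omega⟩
          rw [coeff_mul_X] at h3
          obtain ⟨i, j, hij, hn'⟩ := ih n' h3
          exact ⟨i, j + 1, by omega, by omega⟩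
    · split_ifs at h2 with h3
      · obtain ⟨i, j, hij, hn'⟩ := ih _ h2
        refine ⟨i + 1, j, by omega, ?_⟩
        rw [mul_add, mul_one]
        omega
      · exact absurd rfl h2

theorem sum_tri (n : ℕ) : 2 * ∑ i ∈ range n, (n - i) = n * (n + 1) := by
  induction n with
  | zero => simp
  | succ n ih =>
    rw [Finset.sum_range_succ']
    simp only [Nat.reduceSubDiff, Nat.sub_zero]
    rw [mul_add, ih]
    ring

theorem card_le (a : ℕ) (A B : ℕ → K) (r : ℕ) :
    2 * (∏ j ∈ range r, (X ^ a + (C (A j) * X + C (B j)))).support.card ≤ (r + 1) * (r + 2) := by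
  have h1 : (∏ j ∈ range r, (X ^ a + (C (A j) * X + C (B j)))).support ⊆
      ((range (r + 1)).sigma (fun i => range (r + 1 - i))).image (fun x => a * x.1 + x.2) := by
    intro n hn
    rw [mem_support_iff] at hn
    obtain ⟨i, j, hij, hn'⟩ := coeff_prod_ne a A B r n hn
    rw [Finset.mem_image]
    refine ⟨⟨i, j⟩, ?_, hn'.symm⟩
    rw [Finset.mem_sigma, Finset.mem_range, Finset.mem_range]
    exact ⟨by simp only; omega, by simp only; omega⟩
  have h2 := (Finset.card_le_card h1).trans Finset.card_image_le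
  rw [Finset.card_sigma] at h2
  simp only [Finset.card_range] at h2
  have h3 := sum_tri (r + 1)
  have h4 : (r + 1) * (r + 1 + 1) = (r + 1) * (r + 2) := rfl
  omega

theorem trin_monic {a : ℕ} (ha : 2 ≤ a) (x y : K) :
    (X ^ a + (C x * X + C y) : K[X]).Monic ∧ (X ^ a + (C x * X + C y) : K[X]).natDegree = a := by
  have h1 : (C x * X + C y : K[X]).degree < (a : ℕ) :=
    lt_of_le_of_lt degree_linear_le (by exact_mod_cast ha)
  refine ⟨monic_X_pow_add h1, ?_⟩
  rw [natDegree_eq_of_degree_eq_some]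
  rw [degree_add_eq_left_of_degree_lt]
  · exact degree_X_pow a
  · rw [degree_X_pow]
    exact h1

end

section
variable {K : Type*} [Field K] [Algebra (ZMod 2) K]

theorem minpoly_degree (y : K) (n : ℕ) (hn : 0 < n) (hord : orderOf y = 2 ^ n - 1) :
    n ≤ (minpoly (ZMod 2) y).natDegree := by
  have h2n : 2 ≤ 2 ^ n := by
    calc 2 = 2 ^ 1 := rfl
      _ ≤ 2 ^ n := Nat.pow_le_pow_right (by norm_num) hn
  have hy : y ^ (2 ^ n - 1) = 1 := by
    rw [← hord]
    exact pow_orderOf_eq_one y
  have hint : IsIntegral (ZMod 2) y := by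
    refine ⟨X ^ (2 ^ n - 1) - 1, ?_, ?_⟩
    · have := monic_X_pow_sub_C (1 : ZMod 2) (show 2 ^ n - 1 ≠ 0 by omega)
      rwa [C_1] at this
    · simp [hy]
  have hy0 : y ≠ 0 := by
    rintro rfl
    rw [zero_pow (by omega)] at hy
    exact zero_ne_one hy
  set d := (minpoly (ZMod 2) y).natDegree with hd
  have hd0 : 0 < d := minpoly.natDegree_pos hint
  have : FiniteDimensional (ZMod 2) (IntermediateField.adjoin (ZMod 2) {y}) :=
    IntermediateField.adjoin.finiteDimensional hint
  have : Finite (IntermediateField.adjoin (ZMod 2) {y}) := Module.finite_of_finite (ZMod 2)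
  have : Fintype (IntermediateField.adjoin (ZMod 2) {y}) := Fintype.ofFinite _
  have hcard : Fintype.card (IntermediateField.adjoin (ZMod 2) {y}) = 2 ^ d := by
    rw [Module.card_eq_pow_finrank (K := ZMod 2), ZMod.card,
      IntermediateField.adjoin.finrank hint]
  have hpow : y ^ (2 ^ d) = y := by
    have h1 := FiniteField.pow_card
      (⟨y, IntermediateField.mem_adjoin_simple_self (ZMod 2) y⟩ :
        IntermediateField.adjoin (ZMod 2) {y})
    rw [hcard] at h1
    exact congrArg Subtype.val h1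
  have h2d : 2 ≤ 2 ^ d := by
    calc 2 = 2 ^ 1 := rfl
      _ ≤ 2 ^ d := Nat.pow_le_pow_right (by norm_num) hd0
  have h1 : y ^ (2 ^ d - 1) = 1 := by
    have h2 : y ^ (2 ^ d - 1) * y = 1 * y := by
      rw [← pow_succ, one_mul]
      have : 2 ^ d - 1 + 1 = 2 ^ d := by omega
      rw [this, hpow]
    exact mul_right_cancel₀ hy0 h2
  have h3 := orderOf_dvd_of_pow_eq_one h1
  rw [hord] at h3
  have h4 := Nat.le_of_dvd (by omega) h3
  exact (Nat.pow_le_pow_iff_right (by norm_num : 1 < 2)).1 (by omega)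

theorem exists_poly (r a : ℕ) (hr : 1 ≤ r) (ha : 2 ≤ a) (y α β : K) (hα : α ^ (2 ^ r) = α)
    (hβ : β ^ (2 ^ r) = β) (hord : orderOf y = 2 ^ (r * a) - 1)
    (hy : y ^ a + α * y + β = 0) :
    ∃ p : (ZMod 2)[X], p.natDegree = r * a ∧ Irreducible p ∧
      p ∣ X ^ (2 ^ (r * a) - 1) - 1 ∧
      (∀ k : ℕ, 0 < k → k < 2 ^ (r * a) - 1 → ¬ p ∣ X ^ k - 1) ∧
      2 * p.support.card ≤ (r + 1) * (r + 2) := by
  have : CharP K 2 := charP_of_injective_algebraMap (algebraMap (ZMod 2) K).injective 2
  set h : ℕ → K[X] := fun j => X ^ a + (C (α ^ (2 ^ j)) * X + C (β ^ (2 ^ j))) with hh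
  set G : K[X] := ∏ j ∈ range r, h j with hG
  have hmon : ∀ j, (h j).Monic := fun j => (trin_monic ha _ _).1
  have hGmon : G.Monic := monic_prod_of_monic _ _ fun j _ => hmon j
  have hGdeg : G.natDegree = r * a := by
    rw [hG, natDegree_prod_of_monic _ _ fun j _ => hmon j]
    have : ∀ j ∈ range r, (h j).natDegree = a := fun j _ => (trin_monic ha _ _).2
    rw [Finset.sum_congr rfl this, Finset.sum_const, Finset.card_range, smul_eq_mul]
  have hmap : ∀ j, (h j).map (frobenius K 2) = h (j + 1) := by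
    intro j
    have h1 : ∀ x : K, (x ^ (2 ^ j)) ^ 2 = x ^ (2 ^ (j + 1)) := fun x => by
      rw [← pow_mul, pow_succ]
    simp only [hh, Polynomial.map_add, Polynomial.map_mul, Polynomial.map_pow, map_X, map_C,
      frobenius_def, h1]
  have hGmap : G.map (frobenius K 2) = G := by
    rw [hG, Polynomial.map_prod, Finset.prod_congr rfl fun j _ => hmap j]
    have h1 : (∏ j ∈ range r, h (j + 1)) * h 0 = (∏ j ∈ range r, h j) * h r := by
      rw [← Finset.prod_range_succ', ← Finset.prod_range_succ]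
    have h2 : h r = h 0 := by
      simp only [hh, hα, hβ, pow_zero, pow_one]
    rw [h2] at h1
    exact mul_right_cancel₀ (hmon 0).ne_zero h1
  have hlift : G ∈ lifts (algebraMap (ZMod 2) K) := by
    rw [lifts_iff_coeff_lifts]
    intro k
    have h1 : (G.coeff k) ^ 2 = G.coeff k := by
      have h2 := congrArg (fun f => coeff f k) hGmap
      simpa only [coeff_map, frobenius_def] using h2
    have h2 : G.coeff k * (G.coeff k - 1) = 0 := by
      rw [mul_sub, ← sq, h1, mul_one, sub_self]
    rcases mul_eq_zero.1 h2 with h3 | h3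
    · exact ⟨0, by rw [h3, map_zero]⟩
    · exact ⟨1, by rw [sub_eq_zero.1 h3, map_one]⟩
  obtain ⟨G₀, hG₀⟩ := (mem_lifts _).1 hlift
  have hinj : Function.Injective (algebraMap (ZMod 2) K) := (algebraMap (ZMod 2) K).injective
  have hG₀mon : G₀.Monic := by
    refine monic_of_injective hinj ?_
    rw [hG₀]
    exact hGmon
  have hG₀deg : G₀.natDegree = r * a := by
    rw [← hGdeg, ← hG₀, natDegree_map_eq_of_injective hinj]
  have hn : 0 < r * a := by positivity
  have hdeg := minpoly_degree y (r * a) hn hord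
  have h2n : 2 ≤ 2 ^ (r * a) := by
    calc 2 = 2 ^ 1 := rfl
      _ ≤ 2 ^ (r * a) := Nat.pow_le_pow_right (by norm_num) hn
  have hyp : y ^ (2 ^ (r * a) - 1) = 1 := by
    rw [← hord]
    exact pow_orderOf_eq_one y
  have hint : IsIntegral (ZMod 2) y := by
    refine ⟨X ^ (2 ^ (r * a) - 1) - 1, ?_, ?_⟩
    · have := monic_X_pow_sub_C (1 : ZMod 2) (show 2 ^ (r * a) - 1 ≠ 0 by omega)
      rwa [C_1] at this
    · simp [hyp]
  have haeval : aeval y G₀ = 0 := by
    rw [aeval_def, ← eval_map, hG₀, hG, eval_prod]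
    refine Finset.prod_eq_zero (i := 0) (Finset.mem_range.2 (by omega)) ?_
    simp only [hh, eval_add, eval_pow, eval_mul, eval_X, eval_C, pow_zero, pow_one]
    rw [← add_assoc]
    exact hy
  have heq : G₀ = minpoly (ZMod 2) y :=
    eq_of_monic_of_dvd_of_natDegree_le (minpoly.monic hint) hG₀mon
      (minpoly.dvd _ _ haeval) (by omega)
  refine ⟨G₀, hG₀deg, ?_, ?_, ?_, ?_⟩
  · rw [heq]
    exact minpoly.irreducible hint
  · rw [heq]
    refine minpoly.dvd _ _ ?_
    simp [hyp]
  · intro k hk0 hk hdvd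
    have h1 : aeval y (X ^ k - 1 : (ZMod 2)[X]) = 0 := by
      obtain ⟨s, hs⟩ := hdvd
      rw [hs, map_mul, haeval, zero_mul]
    have h2 : y ^ k = 1 := by
      simpa [sub_eq_zero] using h1
    have h3 := Nat.le_of_dvd hk0 (orderOf_dvd_of_pow_eq_one h2)
    omega
  · have h1 := card_le a (fun j => α ^ (2 ^ j)) (fun j => β ^ (2 ^ j)) r
    have h2 : G₀.support = G.support := by
      rw [← hG₀, support_map_of_injective _ hinj]
    rw [h2]
    exact h1

end

end Pool.Agent.Helper3.PP
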