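import Pool.Agent.Helper3.PP.Core

/-!
# Stepanov's bound for power residues on a line (MP_4ed2e5_nt)
-/

set_option autoImplicit false

namespace Pool.Agent.Helper3.PP

open Polynomial Finset

variable {K : Type*} [Field K]

theorem sum_lin (M B c : ℕ) :
    2 * ∑ k : Fin M, (B + (k : ℕ) * c) = 2 * (M * B) + M * (M - 1) * c := by
  rw [Fin.sum_univ_eq_sum_range (fun k => B + k * c), Finset.sum_add_distrib, Finset.sum_const,
    Finset.card_range, ← Finset.sum_mul, smul_eq_mul, mul_add]
  have := Finset.sum_range_id_mul_two M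
  rw [← this]
  ring

/-- The separation properties for the exponents `i s N`. -/
theorem sep_aux {q Z s N : ℕ} (hZ : 0 < Z) (x y : ℕ) (hxy : x + s * N ≤ y) (h : y ≤ q * Z) :
    x / Z + s * N / Z ≤ y / Z ∧ y / Z ≤ q := by
  constructor
  · have h1 : (x + (s * N / Z) * Z) / Z = x / Z + s * N / Z := Nat.add_mul_div_right _ _ hZ
    rw [← h1]
    apply Nat.div_le_div_right
    have := Nat.div_mul_le_self (s * N) Z
    omega
  · have h1 : q * Z / Z = q := Nat.mul_div_cancel _ hZ
    rw [← h1]
    exact Nat.div_le_div_right h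

theorem expo_le {s N p I : ℕ} (hsI : s * I ≤ p) (i : ℕ) (hi : i ≤ I) :
    i * s * N ≤ p * N := by
  apply Nat.mul_le_mul_right
  calc i * s = s * i := mul_comm _ _
    _ ≤ s * I := Nat.mul_le_mul_left _ hi
    _ ≤ p := hsI

theorem expo_sep {q Z s N p I : ℕ} (hZ : 0 < Z) (hsI : s * I ≤ p) (hpN : p * N ≤ q * Z)
    (i i' : ℕ) (hi : i + 1 ≤ i') (hi' : i' ≤ I) :
    i * s * N / Z + s * N / Z ≤ i' * s * N / Z := by
  refine (sep_aux (q := q) hZ (i * s * N) (i' * s * N) ?_ ?_).1
  · have h1 : (i + 1) * (s * N) ≤ i' * (s * N) := Nat.mul_le_mul_right _ hi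
    have e1 : (i + 1) * (s * N) = i * s * N + s * N := by ring
    have e2 : i' * (s * N) = i' * s * N := by ring
    omega
  · exact (expo_le hsI i' hi').trans hpN

theorem expo_wrap {q Z s N p I : ℕ} (hZ : 0 < Z) (hsI : s * I ≤ p) (hpN : p * N ≤ q * Z)
    (i : ℕ) (hi : i + 1 ≤ I) : i * s * N / Z + s * N / Z ≤ q := by
  have h1 := expo_sep hZ hsI hpN i (i + 1) le_rfl hi
  have h2 := (sep_aux (q := q) (s := s) (N := N) hZ (i * s * N) ((i + 1) * s * N) (by
    have : (i + 1) * s * N = i * s * N + s * N := by ring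
    omega) ((expo_le hsI (i + 1) hi).trans hpN)).2
  exact h1.trans h2

theorem expo_sep' {q Z N p : ℕ} (hZ : 0 < Z) (hpN : p * N ≤ q * Z)
    (i i' : ℕ) (hi : i + 1 ≤ i') (hi' : i' ≤ p) :
    i * N / Z + 1 * N / Z ≤ i' * N / Z := by
  have := expo_sep (q := q) (s := 1) (N := N) (p := p) (I := p) hZ (by omega) hpN i i' hi hi'
  simpa using this

theorem expo_wrap' {q Z N p : ℕ} (hZ : 0 < Z) (hpN : p * N ≤ q * Z)
    (i : ℕ) (hi : i + 1 ≤ p) : i * N / Z + 1 * N / Z ≤ q := by
  have := expo_wrap (q := q) (s := 1) (N := N) (p := p) (I := p) hZ (by omega) hpN i hi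
  simpa using this

theorem count_large {M a R : ℕ} (ha : 2 ≤ a) (hMa : 3 * (a + 5) < 2 * M) (hR : M ≤ 2 * (R + 1)) :
    2 * (M * (R + (a + 5))) + M * (M - 1) * (a - 1) < 2 * (M * ((a + 5) * R)) := by
  obtain ⟨b, rfl⟩ : ∃ b, a = b + 1 := ⟨a - 1, by omega⟩
  obtain ⟨L, rfl⟩ : ∃ L, M = L + 1 := ⟨M - 1, by omega⟩
  simp only [Nat.add_sub_cancel]
  have h5 : 2 * (R + (b + 1 + 5)) + L * b < 2 * ((b + 1 + 5) * R) := by
    have h6 : L * b ≤ (2 * R + 1) * b := Nat.mul_le_mul_right _ (by omega)
    have e1 : (2 * R + 1) * b = 2 * (b * R) + b := by ring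
    have e2 : (b + 1 + 5) * R = b * R + 6 * R := by ring
    omega
  have h7 : (L + 1) * (2 * (R + (b + 1 + 5)) + L * b) < (L + 1) * (2 * ((b + 1 + 5) * R)) :=
    Nat.mul_lt_mul_of_pos_left h5 (by omega)
  have e3 : 2 * ((L + 1) * (R + (b + 1 + 5))) + (L + 1) * L * b =
      (L + 1) * (2 * (R + (b + 1 + 5)) + L * b) := by ring
  have e4 : 2 * ((L + 1) * ((b + 1 + 5) * R)) = (L + 1) * (2 * ((b + 1 + 5) * R)) := by ring
  omega

theorem count_small {M a R J q p : ℕ} (ha : 2 ≤ a) (hp : 2 ≤ p) (hqM : q = M * M)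
    (hM8 : 11 ≤ M) (hpM : p ≤ M) (hRup : p * R ≤ q) (hRlow : q ≤ p * R + p)
    (hJlow : M + p * (a + 4) ≤ p * J) :
    2 * (M * (R + J)) + M * (M - 1) * (a - 1) < 2 * (p * (J * R)) := by
  have h2 : p * (2 * (M * (R + J)) + M * (M - 1) * (a - 1)) < p * (2 * (p * (J * R))) := by
    obtain ⟨b, rfl⟩ : ∃ b, a = b + 1 := ⟨a - 1, by omega⟩
    obtain ⟨L, hL⟩ : ∃ L, M = L + 1 := ⟨M - 1, by omega⟩
    have h3 : b + 1 - 1 = b := by omega
    have h4 : M - 1 = L := by omega
    rw [h3, h4]
    obtain ⟨x, hx⟩ : ∃ x, x = p * R := ⟨_, rfl⟩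
    obtain ⟨y, hy⟩ : ∃ y, y = p * J := ⟨_, rfl⟩
    have e1 : p * (2 * (p * (J * R))) = 2 * (y * x) := by rw [hx, hy]; ring
    have e2 : p * (2 * (M * (R + J)) + M * L * b) = 2 * (M * (x + y)) + p * (M * L * b) := by
      rw [hx, hy]; ring
    rw [e1, e2]
    rw [← hx] at hRup hRlow
    rw [← hy] at hJlow
    have f3 : M + p * (b + 5) ≤ y := hJlow
    have f4 : M * L ≤ q := by rw [hqM]; exact Nat.mul_le_mul_left _ (by omega)
    have f5 : p * (M * L * b) ≤ p * b * q := by
      have := Nat.mul_le_mul_left (p * b) f4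
      have e5 : p * (M * L * b) = p * b * (M * L) := by ring
      omega
    have f7 : M * 11 ≤ q := by rw [hqM]; exact Nat.mul_le_mul_left _ hM8
    have f6 : q - 2 * M ≤ x - M := by omega
    have f8 : 2 * M * q + p * b * q < 2 * (y * (x - M)) := by
      have g1 : (M + p * (b + 5)) * (q - 2 * M) ≤ y * (x - M) := Nat.mul_le_mul f3 f6
      have g2 : 2 * M * q + p * b * q < 2 * ((M + p * (b + 5)) * (q - 2 * M)) := by
        obtain ⟨w, hw⟩ : ∃ w, q = 2 * M + w := ⟨q - 2 * M, by omega⟩
        have hw' : q - 2 * M = w := by omega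
        rw [hw']
        have g3 : 2 * M ≤ w := by omega
        have k1 : p * b * (2 * M) ≤ p * b * w := Nat.mul_le_mul_left _ g3
        have k2 : M * M ≤ 2 * w := by
          have h9 : M * M = 2 * M + w := by rw [← hqM]; exact hw
          omega
        have k3 : 2 * w ≤ p * w := Nat.mul_le_mul_right _ hp
        have k4 : 0 < w := by omega
        rw [hw]
        have e3 : 2 * M * (2 * M + w) + p * b * (2 * M + w) =
            4 * (M * M) + 2 * (M * w) + p * b * (2 * M) + p * b * w := by ring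
        have e4 : 2 * ((M + p * (b + 5)) * w) =
            2 * (M * w) + 2 * (p * b * w) + 10 * (p * w) := by ring
        rw [e3, e4]
        omega
      omega
    have f9 : y * x = y * (x - M) + y * M := by
      rw [← mul_add]; congr 1; omega
    have f10 : M * (x + y) ≤ M * q + y * M := by
      have : M * x ≤ M * q := Nat.mul_le_mul_left _ hRup
      have e5 : M * (x + y) = M * x + y * M := by ring
      omega
    have e7 : 2 * (M * q) = 2 * M * q := by ring
    omega
  exact Nat.lt_of_mul_lt_mul_left h2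

theorem low_large {M p s N Z R q : ℕ} (hM : 2 ∣ M) (hM8 : 11 ≤ M) (hqM : q = M * M)
    (hpM : M < p) (hZ0 : 0 < Z) (hN0 : 0 < N) (hqZ1 : 1 < q * Z) (hpN : p * N = q * Z - 1)
    (hs1 : s * M ≤ p) (hs2 : p < 2 * (M * s)) (hR : R = s * N / Z) : M ≤ 2 * (R + 1) := by
  by_contra hcon
  have h1' : 2 * (R + 1) + 2 ≤ M := by omega
  have h2 : s * N < Z * (R + 1) := by rw [hR]; exact Nat.lt_mul_div_succ _ hZ0
  have h3 : s * (q * Z - 1) < p * (Z * (R + 1)) := by
    rw [← hpN]
    have : s * (p * N) = p * (s * N) := by ring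
    rw [this]
    exact Nat.mul_lt_mul_of_pos_left h2 (by omega)
  have h4 : s * (q * Z) = s * (q * Z - 1) + s := by
    obtain ⟨w, hw⟩ : ∃ w, q * Z = w + 1 := ⟨q * Z - 1, by omega⟩
    rw [hw]; simp only [Nat.add_sub_cancel]; ring
  have h5 : s ≤ M * Z := by
    have h7 : p ≤ q * Z - 1 := by rw [← hpN]; exact Nat.le_mul_of_pos_right _ hN0
    have h8 : s * M ≤ (M * Z) * M := by
      rw [hqM] at h7
      have e : M * Z * M = M * M * Z := by ring
      omega
    exact Nat.le_of_mul_le_mul_right h8 (by omega)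
  have h9 : s * q < p * (R + 1) + M := by
    have h10 : s * q * Z < (p * (R + 1) + M) * Z := by
      have e1 : s * q * Z = s * (q * Z) := by ring
      have e2 : (p * (R + 1) + M) * Z = p * (Z * (R + 1)) + M * Z := by ring
      omega
    exact Nat.lt_of_mul_lt_mul_right h10
  have h11 : p * M ≤ 2 * (s * q) := by
    rw [hqM]
    have h12 : p * M ≤ 2 * (M * s) * M := Nat.mul_le_mul_right _ hs2.le
    have e1 : 2 * (M * s) * M = 2 * (s * (M * M)) := by ring
    omega
  have h12 : p * (2 * (R + 1)) + 2 * p ≤ p * M := by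
    have h13 : p * (2 * (R + 1) + 2) ≤ p * M := Nat.mul_le_mul_left _ h1'
    have e1 : p * (2 * (R + 1) + 2) = p * (2 * (R + 1)) + 2 * p := by ring
    omega
  have e3 : p * (2 * (R + 1)) = 2 * (p * (R + 1)) := by ring
  omega

/-- **Stepanov's bound** for `x` in the field of `q = 4^m` elements such that `v₀ (θ + x)` is a
`p`-th power in the field of `q^a` elements; uniform in `p`. -/
theorem stepanov_pow [CharP K 2] (m a : ℕ) (ha : 2 ≤ a) (hMa : 3 * (a + 5) < 2 * 2 ^ m) (θ v₀ : K)
    (hinj : ∀ i < a, ∀ j < a, cj (2 ^ (2 * m)) θ i = cj (2 ^ (2 * m)) θ j → i = j)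
    (p : ℕ) (hp : 2 ≤ p) (hdvd : p ∣ (2 ^ (2 * m)) ^ a - 1) (A : Finset K)
    (hA : ∀ x ∈ A, x ^ (2 ^ (2 * m)) = x)
    (hA' : ∀ x ∈ A, (v₀ * (θ + x)) ^ (((2 ^ (2 * m)) ^ a - 1) / p) = 1) :
    p * A.card ≤ 2 ^ (2 * m) + (2 * a + 7) * 2 ^ m * p := by
  set M : ℕ := 2 ^ m with hM
  have hqM : 2 ^ (2 * m) = M * M := by rw [hM, ← pow_add]; congr 1; ring
  set q : ℕ := 2 ^ (2 * m) with hq
  set N : ℕ := (q ^ a - 1) / p with hN
  set Z : ℕ := q ^ (a - 1) with hZ
  have hM8 : 11 ≤ M := by omega
  have hq0 : 0 < q := by rw [hqM]; positivity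
  have hZ0 : 0 < Z := by positivity
  have hqZ : q ^ a = q * Z := by
    rw [hZ, ← pow_succ']; congr 1; omega
  have hpN : p * N = q * Z - 1 := by
    rw [hN, Nat.mul_div_cancel' hdvd, hqZ]
  have hqZ1 : 1 < q * Z := by
    have h1 : 1 ≤ Z := hZ0
    have h2 : 1 < q := by rw [hqM]; nlinarith
    nlinarith
  have hN0 : 0 < N := by
    rcases Nat.eq_zero_or_pos N with h | h
    · rw [h] at hpN; omega
    · exact h
  have hpNle : p * N ≤ q * Z := by omega
  -- common facts for the exponents
  have hγ : ∀ (n : ℕ), ∀ x ∈ A, (θ + x) ^ (n * N) = (v₀⁻¹) ^ (n * N) := by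
    intro n x hx
    have h1 := hA' x hx
    have hv : v₀ ≠ 0 := by
      rintro rfl
      rw [zero_mul, zero_pow hN0.ne'] at h1
      exact zero_ne_one h1
    have h2 : (v₀ * (θ + x)) ^ (n * N) = 1 := by rw [mul_comm n, pow_mul, h1, one_pow]
    rw [mul_pow] at h2
    rw [inv_pow]
    exact eq_inv_of_mul_eq_one_right h2
  rcases Nat.lt_or_ge M p with hpM | hpM
  · -- large p
    set s : ℕ := p / M with hs
    have hs1 : s * M ≤ p := Nat.div_mul_le_self _ _
    have hsp : s ≤ p := Nat.div_le_self _ _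
    have hsN : s * N ≤ q * Z := by
      have : s * N ≤ p * N := Nat.mul_le_mul_right N hsp
      omega
    have hs0 : 1 ≤ s := by rw [hs, Nat.one_le_div_iff (by omega)]; omega
    have hs2 : p < 2 * (M * s) := by
      have h1 := Nat.lt_mul_div_succ p (show 0 < M by omega)
      rw [← hs] at h1
      have h2 : M * 1 ≤ M * s := Nat.mul_le_mul_left _ hs0
      have e1 : M * (s + 1) = M * s + M := by ring
      omega
    set R : ℕ := s * N / Z with hR
    have hRlow : M ≤ 2 * (R + 1) :=
      low_large (by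
        rw [hM]
        apply dvd_pow_self
        rintro rfl
        simp at hM
        omega) hM8 hqM hpM hZ0 hN0 hqZ1 hpN hs1 hs2 hR
    have hR1 : 1 ≤ R := by omega
    have key := stepanov_core (2 * m) a M M (a + 5) R (by omega)
      (by rw [← hq, hqM]; nlinarith) hR1 (by omega)
      (sep_aux (q := q) (s := s) (N := N) hZ0 0 (s * N) (by omega) hsN).2 θ hinj
      (fun i => (i : ℕ) * s * N)
      (by
        intro i
        rw [← hq, hqZ]
        have h2 := expo_le (N := N) hs1 (i : ℕ) i.2.le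
        omega)
      (fun i => (v₀⁻¹) ^ ((i : ℕ) * s * N)) A hA (fun x hx i => hγ _ x hx)
      (fun i i' hii => expo_sep hZ0 hs1 hpNle _ _ hii i'.2.le)
      (fun i => expo_wrap hZ0 hs1 hpNle _ i.2)
      (by
        have h1 := sum_lin M (R + (a + 5)) (a - 1)
        have h2 := count_large ha hMa hRlow
        omega)
    -- conclusion
    rw [← hq] at key
    have hRq : R ≤ q := (sep_aux (q := q) (s := s) (N := N) hZ0 0 (s * N) (by omega) hsN).2
    have h1 : M * A.card ≤ M * ((2 * a + 7) * M) := by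
      have h2 : a ≤ M := by omega
      calc M * A.card ≤ a * M + R + a * q + (a + 5) * q := key
        _ ≤ a * M + q + a * q + (a + 5) * q := by omega
        _ ≤ M * ((2 * a + 7) * M) := by
          rw [hqM]
          have h3 : a * M ≤ M * M := Nat.mul_le_mul_right _ h2
          have e1 : M * ((2 * a + 7) * M) = 2 * (a * (M * M)) + 7 * (M * M) := by ring
          have e2 : (a + 5) * (M * M) = a * (M * M) + 5 * (M * M) := by ring
          omega
    have h2 : A.card ≤ (2 * a + 7) * M := Nat.le_of_mul_le_mul_left h1 (by omega)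
    have h3 : p * A.card ≤ (2 * a + 7) * M * p := by
      rw [mul_comm]
      exact Nat.mul_le_mul_right _ h2
    omega
  · -- small p
    set R : ℕ := 1 * N / Z with hR
    have hRup : p * R ≤ q := by
      have h1 : R * Z ≤ N := by
        have := Nat.div_mul_le_self (1 * N) Z
        rw [← hR] at this
        omega
      have h2 : p * R * Z ≤ q * Z := by
        have : p * (R * Z) ≤ p * N := Nat.mul_le_mul_left _ h1
        have e : p * R * Z = p * (R * Z) := by ring
        omega
      exact Nat.le_of_mul_le_mul_right h2 hZ0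
    have hRlow : q ≤ p * R + p := by
      by_contra hcon
      have h2 : N < Z * (R + 1) := by
        have := Nat.lt_mul_div_succ (1 * N) hZ0
        rw [← hR] at this
        omega
      have h3 : p * N < p * (Z * (R + 1)) := Nat.mul_lt_mul_of_pos_left h2 (by omega)
      have h4 : (p * R + p + 1) * Z ≤ q * Z := Nat.mul_le_mul_right _ (by omega)
      have h5 : p * (Z * (R + 1)) = (p * R + p) * Z := by ring
      have h6 : (p * R + p + 1) * Z = (p * R + p) * Z + Z := by ring
      omega
    have hR1 : 1 ≤ R := by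
      rcases Nat.eq_zero_or_pos R with h | h
      · rw [h] at hRlow
        have : M < q := by rw [hqM]; nlinarith
        omega
      · exact h
    set J : ℕ := M / p + a + 5 with hJ
    have hJlow : M + p * (a + 4) ≤ p * J := by
      have h1 := Nat.lt_mul_div_succ M (show 0 < p by omega)
      have h2 : p * J = p * (M / p + 1) + p * (a + 4) := by rw [hJ]; ring
      omega
    have hJup : p * J ≤ M + p * (a + 5) := by
      have h1 := Nat.mul_div_le M p
      have h2 : p * J = p * (M / p) + p * (a + 5) := by rw [hJ]; ring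
      omega
    have hJ1 : 1 ≤ J := by
      rw [hJ]
      exact Nat.succ_le_of_lt (Nat.add_pos_right _ (by norm_num))
    have key := stepanov_core (2 * m) a M p J R (by omega)
      (by rw [← hq, hqM]; nlinarith) hR1 hJ1
      (by
        rw [← hq]
        have : R ≤ p * R := Nat.le_mul_of_pos_left _ (by omega)
        omega) θ hinj
      (fun i => (i : ℕ) * N)
      (by
        intro i
        rw [← hq, hqZ]
        have h2 : (i : ℕ) * N ≤ p * N := Nat.mul_le_mul_right _ i.2.le
        omega)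
      (fun i => (v₀⁻¹) ^ ((i : ℕ) * N)) A hA (fun x hx i => hγ _ x hx)
      (fun i i' hii => expo_sep' hZ0 hpNle _ _ hii i'.2.le)
      (fun i => expo_wrap' hZ0 hpNle _ i.2)
      (by
        have h1 := sum_lin M (R + J) (a - 1)
        have h2 := count_small ha hp hqM hM8 hpM hRup hRlow hJlow
        omega)
    rw [← hq] at key
    have h1 : M * (p * A.card) ≤ M * (q + (2 * a + 7) * M * p) := by
      have h2 : a ≤ M := by omega
      have e1 : M * (p * A.card) = p * (M * A.card) := by ring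
      have e2 : p * (a * M + R + a * q + J * q) = p * (a * M) + p * R + p * (a * q) + p * J * q := by
        ring
      rw [e1]
      refine (Nat.mul_le_mul_left p key).trans ?_
      rw [e2]
      have f1 : p * J * q ≤ (M + p * (a + 5)) * q := Nat.mul_le_mul_right _ hJup
      have f2 : p * (a * M) ≤ p * (M * M) := Nat.mul_le_mul_left _ (Nat.mul_le_mul_right _ h2)
      have f3 : q ≤ p * q := Nat.le_mul_of_pos_left _ (by omega)
      calc p * (a * M) + p * R + p * (a * q) + p * J * q
          ≤ p * (M * M) + q + p * (a * q) + (M + p * (a + 5)) * q := by omega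
        _ ≤ p * q + p * q + p * (a * q) + (M + p * (a + 5)) * q := by rw [← hqM]; omega
        _ = M * q + (2 * a + 7) * q * p := by ring
        _ = M * (q + (2 * a + 7) * M * p) := by rw [hqM]; ring
    exact Nat.le_of_mul_le_mul_left h1 (by omega)

end Pool.Agent.Helper3.PP
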